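import Pool.Agent.Helper79.HX.Sphere

/-!
# Configurations: a triangulated sphere with a marked triangle
-/

namespace Pool.Agent.Helper79.HX

open Finset

/-- There is a triangulated sphere with a marked triangle whose vertices have degrees `z`, `x`,
`y`, the other vertices having the multiset `M` of degrees. -/
def Conf (z x y : ℕ) (M : Multiset ℕ) : Prop :=
  ∃ (T : Finset (Finset ℕ)) (a b c : ℕ), IsSphere T ∧ a ≠ b ∧ a ≠ c ∧ b ≠ c ∧ {a, b, c} ∈ T ∧
    deg T a = z ∧ deg T b = x ∧ deg T c = y ∧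
    (verts T \ {a, b, c}).val.map (deg T) = M

theorem Conf.swap {z x y : ℕ} {M : Multiset ℕ} (h : Conf z x y M) : Conf z y x M := by
  obtain ⟨T, a, b, c, hS, hab, hac, hbc, hT, ha, hb, hc, hM⟩ := h
  have e : ({a, c, b} : Finset ℕ) = {a, b, c} := by rw [Finset.pair_comm]
  exact ⟨T, a, c, b, hS, hac, hab, hbc.symm, by rw [e]; exact hT, ha, hc, hb, by rw [e]; exact hM⟩

theorem Conf.rot {z x y : ℕ} {M : Multiset ℕ} (h : Conf z x y M) : Conf x z y M := by
  obtain ⟨T, a, b, c, hS, hab, hac, hbc, hT, ha, hb, hc, hM⟩ := h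
  have e : ({b, a, c} : Finset ℕ) = {a, b, c} := by rw [Finset.insert_comm]
  exact ⟨T, b, a, c, hS, hab.symm, hbc, hac, by rw [e]; exact hT, hb, ha, hc, by rw [e]; exact hM⟩

theorem exists_fresh (T : Finset (Finset ℕ)) : ∃ w, w ∉ verts T :=
  Infinite.exists_notMem_finset _

theorem mem_of_tri {T : Finset (Finset ℕ)} {a b c : ℕ} (hT : {a, b, c} ∈ T) :
    a ∈ verts T ∧ b ∈ verts T ∧ c ∈ verts T :=
  ⟨mem_verts.2 ⟨_, hT, by simp⟩, mem_verts.2 ⟨_, hT, by simp⟩, mem_verts.2 ⟨_, hT, by simp⟩⟩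

/-- Move 1: complete the vertex of degree `x` (it gets degree `x + 1`). -/
theorem Conf.move1 {z x y : ℕ} {M : Multiset ℕ} (h : Conf z x y M) :
    Conf (z + 1) 3 (y + 1) ((x + 1) ::ₘ M) := by
  obtain ⟨T, a, b, c, hS, hab, hac, hbc, hT, ha, hb, hc, hM⟩ := h
  obtain ⟨w, hw⟩ := exists_fresh T
  obtain ⟨wa, wb, wc⟩ := w_ne hT hw
  obtain ⟨va, vb, vc⟩ := mem_of_tri hT
  refine ⟨stack T a b c w, a, w, c, stack_isSphere hab hac hbc hT hw hS, wa.symm, hac, wc, ?_,
    ?_, ?_, ?_, ?_⟩
  · rw [mem_stack]; right; right; left; rw [Finset.pair_comm]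
  · rw [deg_stack hab hac hbc hT hw]; simp [wa.symm, ha]
  · rw [deg_stack hab hac hbc hT hw]; simp
  · rw [deg_stack hab hac hbc hT hw]; simp [wc.symm, hc]
  · have h1 : verts (stack T a b c w) \ {a, w, c} = insert b (verts T \ {a, b, c}) := by
      rw [verts_stack hT]
      ext v
      simp only [Finset.mem_sdiff, Finset.mem_insert, Finset.mem_singleton, not_or]
      constructor
      · rintro ⟨h1 | h1, h2, h3, h4⟩
        · exact absurd h1 h3
        · by_cases hvb : v = b
          · exact Or.inl hvb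
          · exact Or.inr ⟨h1, h2, hvb, h4⟩
      · rintro (rfl | ⟨h1, h2, h3, h4⟩)
        · exact ⟨Or.inr vb, hab.symm, wb.symm, hbc⟩
        · exact ⟨Or.inr h1, h2, fun h => hw (h ▸ h1), h4⟩
    rw [h1, Finset.insert_val_of_notMem (by simp), Multiset.map_cons]
    congr 1
    · rw [deg_stack hab hac hbc hT hw]; simp [wb.symm, hb]
    · rw [← hM]
      apply Multiset.map_congr rfl
      intro v hv
      have hv' : v ∈ verts T \ {a, b, c} := hv
      simp only [Finset.mem_sdiff, Finset.mem_insert, Finset.mem_singleton, not_or] at hv'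
      obtain ⟨h1, h2, h3, h4⟩ := hv'
      rw [deg_stack hab hac hbc hT hw]
      have hvw : v ≠ w := fun h => hw (h ▸ h1)
      simp [hvw, h2, h3, h4]

/-- Move 2: complete the vertex of degree `x` and add a vertex of degree three
(it gets degree `x + 2`). -/
theorem Conf.move2 {z x y : ℕ} {M : Multiset ℕ} (h : Conf z x y M) :
    Conf (z + 2) 4 (y + 1) ((x + 2) ::ₘ 3 ::ₘ M) := by
  obtain ⟨T, a, b, c, hS, hab, hac, hbc, hT, ha, hb, hc, hM⟩ := h
  obtain ⟨w, hw⟩ := exists_fresh T
  obtain ⟨wa, wb, wc⟩ := w_ne hT hw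
  obtain ⟨va, vb, vc⟩ := mem_of_tri hT
  set T1 := stack T a b c w with hT1
  have hS1 : IsSphere T1 := stack_isSphere hab hac hbc hT hw hS
  have hf1 : ({a, b, w} : Finset ℕ) ∈ T1 := mem_stack.2 (by simp)
  have hV1 : verts T1 = insert w (verts T) := verts_stack hT
  obtain ⟨s, hs⟩ := exists_fresh T1
  obtain ⟨sa, sb, sw⟩ := w_ne hf1 hs
  have hsT : s ∉ verts T := fun h => hs (by rw [hV1]; exact Finset.mem_insert_of_mem h)
  have sc : s ≠ c := fun h => hsT (h ▸ vc)
  have hd1 := deg_stack hab hac hbc hT hw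
  have hd2 := deg_stack hab wa.symm wb.symm hf1 hs
  refine ⟨stack T1 a b w s, a, w, c, stack_isSphere hab wa.symm wb.symm hf1 hs hS1, wa.symm, hac,
    wc, ?_, ?_, ?_, ?_, ?_⟩
  · rw [mem_stack]; left
    refine ⟨?_, ?_⟩
    · intro h
      have : c ∈ ({a, b, w} : Finset ℕ) := h ▸ (by simp)
      simp [hac.symm, hbc.symm, wc.symm] at this
    · rw [hT1, mem_stack]; right; right; left; rw [Finset.pair_comm]
  · rw [hd2, hT1, hd1]; simp [sa.symm, wa.symm, ha]
  · rw [hd2, hT1, hd1]; simp [sw.symm]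
  · rw [hd2, hT1, hd1]; simp [sc.symm, hac.symm, hbc.symm, wc.symm, hc]
  · have h1 : verts (stack T1 a b w s) \ {a, w, c} = insert b (insert s (verts T \ {a, b, c})) := by
      rw [verts_stack hf1, hV1]
      ext v
      simp only [Finset.mem_sdiff, Finset.mem_insert, Finset.mem_singleton, not_or]
      constructor
      · rintro ⟨h1 | h1 | h1, h2, h3, h4⟩
        · exact Or.inr (Or.inl h1)
        · exact absurd h1 h3
        · by_cases hvb : v = b
          · exact Or.inl hvb
          · exact Or.inr (Or.inr ⟨h1, h2, hvb, h4⟩)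
      · rintro (rfl | rfl | ⟨h1, h2, h3, h4⟩)
        · exact ⟨Or.inr (Or.inr vb), hab.symm, wb.symm, hbc⟩
        · exact ⟨Or.inl rfl, sa, sw, sc⟩
        · exact ⟨Or.inr (Or.inr h1), h2, fun h => hw (h ▸ h1), h4⟩
    rw [h1, Finset.insert_val_of_notMem (by simp [sb.symm]), Multiset.map_cons,
      Finset.insert_val_of_notMem (by simp [hsT]), Multiset.map_cons]
    congr 1
    · rw [hd2, hT1, hd1]; simp [sb.symm, wb.symm, hb]
    · congr 1
      · rw [hd2]; simp
      · rw [← hM]
        apply Multiset.map_congr rfl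
        intro v hv
        have hv' : v ∈ verts T \ {a, b, c} := hv
        simp only [Finset.mem_sdiff, Finset.mem_insert, Finset.mem_singleton, not_or] at hv'
        obtain ⟨h1, h2, h3, h4⟩ := hv'
        have hvw : v ≠ w := fun h => hw (h ▸ h1)
        have hvs : v ≠ s := fun h => hsT (h ▸ h1)
        rw [hd2, hT1, hd1]
        simp [hvw, hvs, h2, h3, h4]

end Pool.Agent.Helper79.HX
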