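import Pool.Agent.Helper79.HX.Small

/-!
# The main construction with many pentagons
-/

namespace Pool.Agent.Helper79.HX

open Finset

/-- a dominant face which is not the hub -/
theorem win_dom1 {H A B M : ℕ} {C : Multiset ℕ} (hC : ∀ c ∈ C, 3 ≤ c) (hH : 1 ≤ H)
    (hM : 3 * A + B + Multiset.card C + 2 ≤ M)
    (hs : 2 * A + B + 2 + Multiset.card C ≤ H + C.sum) : Win H (M ::ₘ C) A B := by
  rcases Nat.lt_or_ge A ((H - 1) / 2) with h | h
  · rcases Nat.lt_or_ge B (H - 1 - 2 * A) with h2 | h2
    · exact win_pour hC (by omega) (by omega) (by omega) (fun _ => by omega)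
    · have h5 : Win (M - 1 - 3 * A - (H - 1 - 2 * A)) C 0 (B - (H - 1 - 2 * A)) :=
        win_dom hC (by omega) (by omega)
      exact (win_S 0 0 A (H - 1 - 2 * A) h5).congr (by omega) (by congr 1; omega) (by omega)
        (by omega)
  · have h5 : Win (M - 1 - 3 * ((H - 1) / 2)) C (A - (H - 1) / 2) B :=
      win_dom hC (by omega) (by omega)
    exact (win_S (H - 1 - 2 * ((H - 1) / 2)) 0 ((H - 1) / 2) 0 h5).congr (by omega)
      (by congr 1; omega) (by omega) (by omega)

theorem two1 {H A B c1 c2 : ℕ} (hA : 1 ≤ A) (h3 : 3 ≤ c2) (h21 : c2 ≤ c1) (hH : 1 ≤ H)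
    (hW : 9 * A + 2 * B + 8 ≤ H + c1 + c2 ∨ (B = 0 ∧ 4 ≤ H ∧ 9 * A + 7 ≤ H + c1 + c2))
    (hs : 2 * A + B + 3 ≤ c1 + c2) (hc1 : 2 * A + B + 3 ≤ H + c2) : Win H {c1, c2} A B := by
  rw [Multiset.insert_eq_cons]
  have hc2' : ∀ c ∈ ({c2} : Multiset ℕ), 3 ≤ c := by simpa using h3
  rcases Nat.lt_or_ge H (3 * A + B + 3) with d1 | d1
  swap
  · apply win_dom
    · intro c hc
      rw [Multiset.mem_cons, Multiset.mem_singleton] at hc
      omega
    · simp only [Multiset.card_cons, Multiset.card_singleton]; omega
    · simp only [Multiset.card_cons, Multiset.card_singleton, Multiset.sum_cons,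
        Multiset.sum_singleton]; omega
  rcases Nat.lt_or_ge c1 (3 * A + B + 3) with d2 | d2
  swap
  · apply win_dom1 hc2' hH
    · simp only [Multiset.card_singleton]; omega
    · simp only [Multiset.card_singleton, Multiset.sum_singleton]; omega
  rcases Nat.lt_or_ge c1 (2 * A + B + 2) with d3 | d3
  · refine (win_tri (H + c1 + c2 - 6 - 5 * A - 2 * B) (B + 1 + 2 * A - c2)
      (c1 + c2 - 4 - B - 5 * A) (B + 3 * A - c1) A 0).congr ?_ ?_ rfl ?_
    · omega
    · rw [Multiset.insert_eq_cons]
      congr 1
      · omega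
      · congr 1; omega
    · omega
  · rcases Nat.lt_or_ge H (3 * A + B + 2) with d4 | d4
    · have h4 : Win (c1 - 1 - 2 * A - (H - 1 - 3 * A)) (c2 ::ₘ 0) 0 (B - (H - 1 - 3 * A)) :=
        win_pour (by simp) (by omega) (by omega) (by omega) (by simp)
      exact (win_S 0 A 0 (H - 1 - 3 * A) h4).congr (by omega) (by congr 1; omega) (by omega)
        (by omega)
    · exact win_pour hc2' (by omega) (by omega) (by omega) (fun _ => by omega)


theorem arith_a {A B H M m S n a b q c : ℕ} (hW : 9 * A + 2 * B + 3 + 2 * (n + 3) ≤ H + (M + (m + S)))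
    (d1 : H ≤ 3 * A + B + (n + 3)) (e1 : 2 * a + 3 * b + q + 1 = m)
    (e2 : a ≤ 2) (hcM : c ≤ M) (hc : c + 3 * n ≤ S)
    (hmc : m ≤ c) (hneg : M + (m + S) < 2 * A + B + 1 + c + (n + 3)) :
    q ≤ B ∧ 3 * a + 2 * b + q + 2 ≤ H ∧ 2 * A + B + 1 + (n + 3) + a ≤ H + S := by
  refine ⟨?_, ?_, ?_⟩ <;> omega

/-- the three ways to fail -/
theorem arith_c {A B H M m S n a b q o : ℕ} (hA : 1 ≤ A)
    (hW : 9 * A + 2 * B + 3 + 2 * (n + 3) ≤ H + (M + (m + S)))
    (d2 : M ≤ 3 * A + B + (n + 3)) (hmM : m ≤ M) (hm : 3 ≤ m)
    (e1 : 2 * a + 3 * b + q + 1 = m)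
    (e2 : a ≤ 2) (e4 : q = 0 ∨ (a = 0 ∧ b = A)) (e5 : 1 ≤ a + b)
    (hFP : ¬ (2 * A + B + 1 ≤ H ∧ 2 * A + B + 1 ≤ M ∧ 5 * A + 2 * B + 3 ≤ H + M))
    (hsm : 5 ≤ M ∨ 5 ≤ H) (hsp : ¬ (H = 7 ∧ M = 5))
    (hL : B < q ∨ H < 3 * a + 2 * b + q + 2 ∨ H + S < 2 * A + B + 1 + (n + 3) + a)
    (ho : 3 * o + 1 ≤ H) (ho' : H ≤ 3 * o + 3) (hoA : o ≤ A) : 2 * o + 2 ≤ M := by
  rcases hL with h | h | h
  · rcases e4 with h4 | ⟨h4, h4'⟩
    · omega
    · subst h4 h4'
      omega
  · clear hFP hW d2
    rcases e4 with h4 | ⟨h4, h4'⟩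
    · subst h4
      interval_cases a
      · omega
      · rcases Nat.eq_zero_or_pos b with hb | hb
        · subst hb; omega
        · omega
      · rcases Nat.eq_zero_or_pos b with hb | hb
        · subst hb; omega
        · omega
    · subst h4 h4'
      omega
  · clear hFP
    omega

theorem arith_b {A B H M m S n a b q : ℕ} (hA : 1 ≤ A)
    (hW : 9 * A + 2 * B + 3 + 2 * (n + 3) ≤ H + (M + (m + S)))
    (d2 : M ≤ 3 * A + B + (n + 3)) (hmM : m ≤ M)
    (e1 : 2 * a + 3 * b + q + 1 = m)
    (e2 : a ≤ 2) (e3 : a + b ≤ A) (e4 : q = 0 ∨ (a = 0 ∧ b = A)) (hy : m + 3 * n ≤ S)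
    (hFP : ¬ (2 * A + B + 1 ≤ H ∧ 2 * A + B + 1 ≤ M ∧ 5 * A + 2 * B + 3 ≤ H + M))
    (hL : B < q ∨ H < 3 * a + 2 * b + q + 2 ∨ H + S < 2 * A + B + 1 + (n + 3) + a)
    (ho : 3 * A + 4 ≤ H) : H + 1 ≤ M + A ∧ H ≤ B + 1 + 3 * A := by
  rcases hL with h | h | h
  · rcases e4 with h4 | ⟨h4, h4'⟩
    · omega
    · subst h4 h4'
      constructor <;> omega
  · clear hW d2
    rcases e4 with h4 | ⟨h4, h4'⟩
    · subst h4
      omega
    · subst h4 h4'
      constructor <;> omega
  · clear hFP
    constructor <;> omega

theorem big : ∀ (n H A B : ℕ) (C : Multiset ℕ), Multiset.card C = n → (∀ c ∈ C, 3 ≤ c) →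
    1 ≤ H →
    (9 * A + 2 * B + 4 + 2 * n ≤ H + C.sum ∨
      (B = 0 ∧ 4 ≤ H ∧ 9 * A + 3 + 2 * n ≤ H + C.sum)) →
    2 * A + B + 1 + n ≤ C.sum → (∀ c ∈ C, 2 * A + B + 1 + c + n ≤ H + C.sum) →
    Win H C A B := by
  intro n
  induction n with
  | zero =>
    intro H A B C hn _ _ _ hs _
    rw [Multiset.card_eq_zero] at hn
    subst hn
    simp at hs
  | succ n ih =>
    intro H A B C hn h3 hH hW hs hc
    rcases Nat.eq_zero_or_pos A with hA | hA
    · subst hA
      rcases Nat.eq_zero_or_pos B with hB | hB
      · subst hB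
        exact (win_zero C (H - 1) h3).congr (by omega) rfl rfl rfl
      · exact zero (n + 1) H B C hn h3 hH (by omega) (fun c h => by have := hc c h; omega)
          (fun _ => by omega)
    match n, ih, hn, hs, hc, hW with
    | 0, _, hn, hs, hc, hW =>
      obtain ⟨y, rfl⟩ := Multiset.card_eq_one.1 hn
      rw [Multiset.sum_singleton] at hs hW
      have h1 := hc y (by simp)
      rw [Multiset.sum_singleton] at h1
      exact win_pour (C := 0) (by simp) (by omega) (by omega) (by omega) (by simp)
    | 1, _, hn, hs, hc, hW =>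
      obtain ⟨c1, c2, C', rfl, h21, -⟩ := decomp C (by omega)
      simp only [Multiset.card_cons] at hn
      have : Multiset.card C' = 0 := by omega
      rw [Multiset.card_eq_zero] at this
      subst this
      simp only [Multiset.sum_cons, Multiset.sum_zero] at hs hc hW
      have h1 := hc c1 (by simp)
      have h3' := h3 c2 (by simp)
      exact two1 hA h3' h21 hH (by omega) (by omega) (by omega)
    | n + 2, ih, hn, hs, hc, hW =>
      obtain ⟨M, m, C', rfl, hmM, hC'⟩ := decomp C (by omega)
      simp only [Multiset.card_cons] at hn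
      simp only [Multiset.sum_cons] at hs hc hW
      have hM3 := h3 M (by simp)
      have hm3 := h3 m (by simp)
      have hC3 : ∀ x ∈ C', 3 ≤ x := fun x hx => h3 x (by simp [hx])
      have hmC3 : ∀ x ∈ m ::ₘ C', 3 ≤ x := fun x hx => h3 x (by
        rcases Multiset.mem_cons.1 hx with h | h <;> simp [h])
      have hMC3 : ∀ x ∈ M ::ₘ C', 3 ≤ x := fun x hx => h3 x (by
        rcases Multiset.mem_cons.1 hx with h | h <;> simp [h])
      have hcM := hc M (by simp)
      have hcm := hc m (by simp)
      have hsum := sum_ge hC3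
      have hcard : Multiset.card C' = n + 1 := by omega
      obtain ⟨y, hy⟩ : ∃ y, y ∈ C' := by
        apply Multiset.exists_mem_of_ne_zero
        rintro rfl
        simp at hcard
      have hy1 := hC' y hy
      have hy2 := sum_ge' hC3 hy
      -- dominant cases
      rcases Nat.lt_or_ge H (3 * A + B + (n + 3) + 1) with d1 | d1
      swap
      · apply win_dom h3
        · simp only [Multiset.card_cons]; omega
        · simp only [Multiset.card_cons, Multiset.sum_cons]; omega
      rcases Nat.lt_or_ge M (3 * A + B + (n + 3) + 1) with d2 | d2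
      swap
      · apply win_dom1 hmC3 hH
        · simp only [Multiset.card_cons]; omega
        · simp only [Multiset.card_cons, Multiset.sum_cons]; omega
      -- final pour
      by_cases hFP : 2 * A + B + 1 ≤ H ∧ 2 * A + B + 1 ≤ M ∧ 5 * A + 2 * B + 3 ≤ H + M
      · exact win_pour hmC3 (by omega) (by omega) (by omega) (fun _ => by omega)
      -- small faces
      by_cases hsm : M ≤ 4 ∧ H ≤ 4
      · apply win_of_win5 _ hH
        apply small
        · intro c hc'
          rcases Multiset.mem_cons.1 hc' with h | h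
          · omega
          · have := h3 c (by simp [h])
            rcases Multiset.mem_cons.1 h with h | h
            · omega
            · have := hC' c h; omega
        · simp only [Multiset.card_cons, Multiset.sum_cons]; omega
        · intro _
          simp only [Multiset.card_cons, Multiset.sum_cons]; omega
      -- the step on the largest face
      have hS : ∀ p a b q : ℕ, p + 3 * a + 2 * b + q + 1 = H → 2 * a + 3 * b + q + 2 ≤ M →
          a + b ≤ A → q ≤ B →
          (9 * (A - a - b) + 2 * (B - q) + 4 + 2 * (n + 2) ≤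
              (M - 1 - 2 * a - 3 * b - q) + (m + C'.sum) ∨
            (B = 0 ∧ 2 * a + 3 * b + q + 5 ≤ M ∧ 9 * (A - a - b) + 3 + 2 * (n + 2) ≤
              (M - 1 - 2 * a - 3 * b - q) + (m + C'.sum))) →
          2 * (A - a - b) + (B - q) + 1 + (n + 2) ≤ m + C'.sum →
          (∀ c ∈ m ::ₘ C', 2 * (A - a - b) + (B - q) + 1 + c + (n + 2) ≤
            (M - 1 - 2 * a - 3 * b - q) + (m + C'.sum)) →
          Win H (M ::ₘ m ::ₘ C') A B := by
        intro p a b q k1 k2 k3 k4 k5 k6 k7
        have h5 := ih (M - 1 - 2 * a - 3 * b - q) (A - a - b) (B - q) (m ::ₘ C')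
          (by simp only [Multiset.card_cons]; omega) hmC3 (by omega)
          (by simp only [Multiset.sum_cons]; omega) (by simp only [Multiset.sum_cons]; omega)
          (by simp only [Multiset.sum_cons]; exact k7)
        exact (win_S p a b q h5).congr (by omega) (by congr 1; omega) (by omega) (by omega)
      have hcle : ∀ c ∈ m ::ₘ C', c ≤ M := by
        intro c hc'
        rcases Multiset.mem_cons.1 hc' with h | h
        · omega
        · exact (hC' c h).2
      rcases Nat.lt_or_ge H 4 with hH4 | hH4
      · -- small hub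
        have : H = 1 ∨ H = 2 ∨ H = 3 := by omega
        rcases this with rfl | rfl | rfl
        · refine hS 0 0 0 0 (by omega) (by omega) (by omega) (by omega) (by omega) (by omega) ?_
          intro c hc'
          have := hcle c hc'
          omega
        · rcases Nat.eq_zero_or_pos B with hB | hB
          · refine hS 1 0 0 0 (by omega) (by omega) (by omega) (by omega) (by omega) (by omega) ?_
            intro c hc'
            have := hcle c hc'
            omega
          · refine hS 0 0 0 1 (by omega) (by omega) (by omega) (by omega) (by omega) (by omega) ?_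
            intro c hc'
            have := hcle c hc'
            omega
        · refine hS 0 0 1 0 (by omega) (by omega) (by omega) (by omega) (by omega) (by omega) ?_
          intro c hc'
          have := hcle c hc'
          omega
      · -- the step on the smallest face
        obtain ⟨a, b, q, e1, e2, e3, e4, e5⟩ : ∃ a b q : ℕ, 2 * a + 3 * b + q + 1 = m ∧ a ≤ 2 ∧
            a + b ≤ A ∧ (q = 0 ∨ (a = 0 ∧ b = A)) ∧ (1 ≤ a + b) := by
          by_cases h0 : (m - 1) % 3 = 0
          · by_cases h1 : (m - 1) / 3 ≤ A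
            · exact ⟨0, (m - 1) / 3, 0, by omega, by omega, by omega, by omega, by omega⟩
            · exact ⟨0, A, m - 1 - 3 * A, by omega, by omega, by omega, by omega, by omega⟩
          · by_cases h0' : (m - 1) % 3 = 2
            · by_cases h1 : 1 + (m - 1) / 3 ≤ A
              · exact ⟨1, (m - 1) / 3, 0, by omega, by omega, by omega, by omega, by omega⟩
              · exact ⟨0, A, m - 1 - 3 * A, by omega, by omega, by omega, by omega, by omega⟩
            · by_cases h1 : 1 + (m - 1) / 3 ≤ A
              · exact ⟨2, (m - 1) / 3 - 1, 0, by omega, by omega, by omega, by omega, by omega⟩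
              · exact ⟨0, A, m - 1 - 3 * A, by omega, by omega, by omega, by omega, by omega⟩
        by_cases hL : q ≤ B ∧ 3 * a + 2 * b + q + 2 ≤ H ∧
            2 * A + B + 1 + (n + 3) + a ≤ H + C'.sum
        · obtain ⟨l1, l2, l3⟩ := hL
          have h5 := ih (H - 1 - 3 * a - 2 * b - q) (A - a - b) (B - q) (M ::ₘ C')
            (by simp only [Multiset.card_cons]; omega) hMC3 (by omega)
            (by simp only [Multiset.sum_cons]; omega) (by simp only [Multiset.sum_cons]; omega)
            (by
              simp only [Multiset.sum_cons]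
              intro c hc'
              have : c ≤ M := by
                rcases Multiset.mem_cons.1 hc' with h | h
                · omega
                · exact (hC' c h).2
              omega)
          exact (win_L a b q h5).congr (by omega) (by
            rw [Multiset.cons_swap]; congr 2 <;> omega) (by omega) (by omega)
        · have hW0 : 9 * A + 2 * B + 3 + 2 * (n + 3) ≤ H + (M + (m + C'.sum)) := by omega
          have hy3 : m + 3 * n ≤ C'.sum := by omega
          -- the bound for the second largest face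
          have hstar : ∀ c ∈ m ::ₘ C', 2 * A + B + 1 + c + (n + 3) ≤ M + (m + C'.sum) := by
            intro c hc'
            have h6 := hcle c hc'
            have h7 : m ≤ c ∧ c + 3 * n ≤ C'.sum := by
              rcases Multiset.mem_cons.1 hc' with h | h
              · subst h; exact ⟨le_rfl, hy3⟩
              · have h8 := sum_ge' hC3 h
                refine ⟨(hC' c h).1, by omega⟩
            by_contra hcon
            exact hL (arith_a hW0 (by omega) e1 e2 h6 h7.2 h7.1 (by omega))
          have hL' : B < q ∨ H < 3 * a + 2 * b + q + 2 ∨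
              H + C'.sum < 2 * A + B + 1 + (n + 3) + a := by
            rcases Nat.lt_or_ge B q with k1 | k1
            · exact Or.inl k1
            · rcases Nat.lt_or_ge H (3 * a + 2 * b + q + 2) with k2 | k2
              · exact Or.inr (Or.inl k2)
              · exact Or.inr (Or.inr (not_le.1 (fun k3 => hL ⟨k1, k2, k3⟩)))
          -- the conditions of the step on the largest face
          have hgo : ∀ p a' q' : ℕ, p + 3 * a' + q' + 1 = H → 2 * a' + q' + 2 ≤ M →
              a' ≤ A → q' ≤ B → 1 ≤ a' → p ≤ 3 → Win H (M ::ₘ m ::ₘ C') A B := by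
            intro p a' q' k1 k2 k3 k4 k5 k6
            clear hL' hFP hsm e4 hL
            refine hS p a' 0 q' (by omega) (by omega) (by omega) k4 (Or.inl ?_) ?_ ?_
            · omega
            · omega
            · intro c hc'
              have := hstar c hc'
              omega
          by_cases hsp : H = 7 ∧ M = 5
          · obtain ⟨rfl, rfl⟩ := hsp
            exact hgo 3 1 0 (by omega) (by omega) hA (by omega) le_rfl le_rfl
          · rcases Nat.lt_or_ge A ((H - 1) / 3) with hdiv | hdiv
            · have hb := arith_b hA hW0 (by omega) hmM e1 e2 e3 e4 hy3 hFP hL' (by omega)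
              exact hgo 0 A (H - 1 - 3 * A) (by omega) (by omega) le_rfl (by omega) hA (by omega)
            · have hc1 := arith_c (o := (H - 1) / 3) hA hW0 (by omega) hmM hm3 e1 e2 e4 e5 hFP
                (by omega) hsp hL' (by omega) (by omega) hdiv
              exact hgo ((H - 1) % 3) ((H - 1) / 3) 0 (by omega) (by omega) hdiv (by omega)
                (by omega) (by omega)

end Pool.Agent.Helper79.HX
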