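import Pool.Agent.Helper79.HX.Count

/-!
# Blocks
-/

namespace Pool.Agent.Helper79.HX

open Finset

/-- `W` is the multiset of degrees of a triangulated sphere. -/
def Fin' (W : Multiset ℕ) : Prop := ∃ T, IsSphere T ∧ (verts T).val.map (deg T) = W

theorem Fin'.congr {M M' : Multiset ℕ} (h : Fin' M)
    (e : ∀ k, M.count k = M'.count k) : Fin' M' := by
  have : M = M' := Multiset.ext.2 e
  exact this ▸ h

theorem Conf.fin {z x y : ℕ} {M : Multiset ℕ} (h : Conf z x y M) :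
    Fin' (z ::ₘ x ::ₘ y ::ₘ M) := h.degrees

theorem Conf.congr {z x y : ℕ} {M M' : Multiset ℕ} (h : Conf z x y M)
    (e : ∀ k, M.count k = M'.count k) : Conf z x y M' := by
  have : M = M' := Multiset.ext.2 e
  exact this ▸ h

/-- pentagon growth of the hub -/
theorem Conf.grow {z : ℕ} {M : Multiset ℕ} (h : Conf z 3 4 M) (g : ℕ) :
    Conf (z + g) 3 4 (M + Multiset.replicate g 5) := by
  induction g with
  | zero => simpa using h
  | succ g ih =>
    rw [Multiset.replicate_succ, Multiset.add_cons]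
    exact ih.swap.move1

/-- complete the hub, the third vertex is the new hub -/
theorem Conf.sw {z x : ℕ} {M : Multiset ℕ} (h : Conf z 3 x M) :
    Conf (x + 1) 3 4 ((z + 1) ::ₘ M) := by
  -- `Conf 3 z x`, complete `z`
  have h1 : Conf (3 + 1) 3 (x + 1) ((z + 1) ::ₘ M) := h.rot.move1
  exact h1.swap.rot.swap

/-- grow the hub to `k - 1` and complete it -/
theorem Conf.close {z : ℕ} {M : Multiset ℕ} (h : Conf z 3 4 M) {k : ℕ} (hk : z + 1 ≤ k) :
    ∃ p, Conf 5 3 4 (M + Multiset.replicate p 5 + {k}) := by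
  have h1 := (h.grow (k - 1 - z)).sw
  refine ⟨k - 1 - z, ?_⟩
  have e : z + (k - 1 - z) + 1 = k := by omega
  rw [e] at h1
  refine h1.congr ?_
  intro j
  simp only [Multiset.count_add, Multiset.count_cons, Multiset.count_singleton]

/-- absorb a quadrangle -/
theorem Conf.quad {M : Multiset ℕ} (h : Conf 5 3 4 M) {k l : ℕ} (hk : 7 ≤ k) (hl : 7 ≤ l) :
    ∃ p, Conf 5 3 4 (M + Multiset.replicate p 5 + {4, k, l}) := by
  have h1 := (h.grow (k - 7)).move1.sw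
  have e : 5 + (k - 7) + 1 + 1 = k := by omega
  rw [e] at h1
  obtain ⟨p, h2⟩ := h1.close (k := l) (by omega)
  refine ⟨k - 7 + p, h2.congr ?_⟩
  intro j
  simp only [Multiset.count_add, Multiset.count_cons, Multiset.count_singleton,
    Multiset.insert_eq_cons, Multiset.replicate_add, Nat.reduceAdd]
  omega

/-- absorb a triangle: sizes `k₁ ≥ 7`, `7`, `k₃ ≥ 8` -/
theorem Conf.tri1 {M : Multiset ℕ} (h : Conf 5 3 4 M) {k l : ℕ} (hk : 7 ≤ k) (hl : 8 ≤ l) :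
    ∃ p, Conf 5 3 4 (M + Multiset.replicate p 5 + {3, k, 7, l}) := by
  -- complete the hub with an ear on the side of the vertex of degree 3
  have h1 : Conf 5 4 5 ((5 + (k - 7) + 2) ::ₘ 3 ::ₘ (M + Multiset.replicate (k - 7) 5)) :=
    (h.grow (k - 7)).rot.move2
  have e : 5 + (k - 7) + 2 = k := by omega
  rw [e] at h1
  have h2 : Conf 6 3 6 (5 ::ₘ k ::ₘ 3 ::ₘ (M + Multiset.replicate (k - 7) 5)) := h1.move1
  -- complete a vertex of degree 6
  have h3 : Conf 4 3 7 (7 ::ₘ 5 ::ₘ k ::ₘ 3 ::ₘ (M + Multiset.replicate (k - 7) 5)) :=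
    h2.rot.move1
  have h4 : Conf 7 3 4 (7 ::ₘ 5 ::ₘ k ::ₘ 3 ::ₘ (M + Multiset.replicate (k - 7) 5)) :=
    h3.swap.rot.swap
  obtain ⟨p, h5⟩ := h4.close (k := l) (by omega)
  refine ⟨k - 7 + 1 + p, h5.congr ?_⟩
  intro j
  simp only [Multiset.count_add, Multiset.count_cons, Multiset.count_singleton,
    Multiset.insert_eq_cons, Multiset.replicate_add, Multiset.replicate_succ,
    Multiset.replicate_zero, Multiset.count_zero]
  omega

/-- absorb a triangle: sizes `k₁ ≥ 7`, `8`, `k₃ ≥ 7` -/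
theorem Conf.tri2 {M : Multiset ℕ} (h : Conf 5 3 4 M) {k l : ℕ} (hk : 7 ≤ k) (hl : 7 ≤ l) :
    ∃ p, Conf 5 3 4 (M + Multiset.replicate p 5 + {3, k, 8, l}) := by
  -- complete the hub with an ear on the side of the vertex of degree 4
  have h1 : Conf 6 4 4 ((5 + (k - 7) + 2) ::ₘ 3 ::ₘ (M + Multiset.replicate (k - 7) 5)) :=
    (h.grow (k - 7)).swap.rot.move2
  have e : 5 + (k - 7) + 2 = k := by omega
  rw [e] at h1
  have h2 : Conf 7 3 5 (5 ::ₘ k ::ₘ 3 ::ₘ (M + Multiset.replicate (k - 7) 5)) := h1.move1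
  have h3 : Conf 6 3 4 (8 ::ₘ 5 ::ₘ k ::ₘ 3 ::ₘ (M + Multiset.replicate (k - 7) 5)) := h2.sw
  obtain ⟨p, h5⟩ := h3.close (k := l) (by omega)
  refine ⟨k - 7 + 1 + p, h5.congr ?_⟩
  intro j
  simp only [Multiset.count_add, Multiset.count_cons, Multiset.count_singleton,
    Multiset.insert_eq_cons, Multiset.replicate_add, Multiset.replicate_succ,
    Multiset.replicate_zero, Multiset.count_zero]
  omega

/-- absorb a triangle: sizes `k₁ ≥ 9`, `k₂ ≥ 8` -/
theorem Conf.tri3 {M : Multiset ℕ} (h : Conf 5 3 4 M) {k l : ℕ} (hk : 9 ≤ k) (hl : 8 ≤ l) :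
    ∃ p, Conf 5 3 4 (M + Multiset.replicate p 5 + {3, k, l}) := by
  have h1 := (h.grow (k - 9)).move2.move1.sw
  have e : 5 + (k - 9) + 2 + 1 + 1 = k := by omega
  rw [e] at h1
  obtain ⟨p, h5⟩ := h1.close (k := l) (by omega)
  refine ⟨k - 9 + 2 + p, h5.congr ?_⟩
  intro j
  simp only [Multiset.count_add, Multiset.count_cons, Multiset.count_singleton,
    Multiset.insert_eq_cons, Multiset.replicate_add, Multiset.replicate_succ,
    Multiset.replicate_zero, Multiset.count_zero, Nat.reduceAdd]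
  omega

/-- absorb two triangles with six heptagons -/
theorem Conf.tri77 {M : Multiset ℕ} (h : Conf 5 3 4 M) :
    Conf 5 3 4 (M + {3, 3} + Multiset.replicate 6 7) := by
  have h1 : Conf 6 4 4 (7 ::ₘ 3 ::ₘ M) := h.swap.rot.move2
  -- complete 6
  have h2 : Conf 5 3 5 (7 ::ₘ 7 ::ₘ 3 ::ₘ M) := h1.rot.move1
  -- complete 5 with an ear on the side of 3
  have h3 : Conf 5 4 6 (7 ::ₘ 3 ::ₘ 7 ::ₘ 7 ::ₘ 3 ::ₘ M) := h2.rot.move2
  -- complete 6
  have h4 : Conf 6 3 5 (7 ::ₘ 7 ::ₘ 3 ::ₘ 7 ::ₘ 7 ::ₘ 3 ::ₘ M) := h3.swap.move1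
  -- complete 6
  have h5 : Conf 6 3 4 (7 ::ₘ 7 ::ₘ 7 ::ₘ 3 ::ₘ 7 ::ₘ 7 ::ₘ 3 ::ₘ M) := h4.sw
  have h6 : Conf 5 3 4 (7 ::ₘ 7 ::ₘ 7 ::ₘ 7 ::ₘ 3 ::ₘ 7 ::ₘ 7 ::ₘ 3 ::ₘ M) := h5.sw
  refine h6.congr ?_
  intro j
  simp only [Multiset.count_add, Multiset.count_cons, Multiset.count_singleton,
    Multiset.insert_eq_cons, Multiset.replicate_succ, Multiset.replicate_zero,
    Multiset.count_zero]
  omega

/-- the special end -/
theorem Conf.end7 {M : Multiset ℕ} (h : Conf 5 3 4 M) :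
    Fin' (M + {3, 4, 5} + {3} + {7, 7, 7}) := by
  have h1 : Conf 5 4 5 (7 ::ₘ 3 ::ₘ M) := h.rot.move2
  have h2 : Conf 6 3 6 (5 ::ₘ 7 ::ₘ 3 ::ₘ M) := h1.move1
  have h3 : Conf 7 3 7 (4 ::ₘ 5 ::ₘ 7 ::ₘ 3 ::ₘ M) := h2.move1
  refine h3.fin.congr ?_
  intro j
  simp only [Multiset.count_add, Multiset.count_cons, Multiset.count_singleton,
    Multiset.insert_eq_cons]
  omega

end Pool.Agent.Helper79.HX
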