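import Pool.Agent.Helper79.HX.Plug

/-!
# The octahedral cap and the triple junction
-/

namespace Pool.Agent.Helper79.HX

open Finset

/-- The octahedral cap in the triangle `{0, 1, 2}`. -/
def capN : Finset (Finset ℕ) :=
  {{0, 1, 4}, {1, 2, 5}, {0, 2, 6}, {0, 4, 6}, {1, 4, 5}, {2, 5, 6}, {4, 5, 6}}

theorem capN_conn : ∀ A ⊆ capN, A.Nonempty →
    (∀ s ∈ A, ∀ t ∈ capN, (s ∩ t).card = 2 → t ∈ A) → A = capN := by
  intro A hA hne hcl
  obtain ⟨s, hs⟩ := hne
  have hc : ({4, 5, 6} : Finset ℕ) ∈ A := by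
    have h : ∀ s ∈ capN, s = {4, 5, 6} ∨ (s ∩ {4, 5, 6}).card = 2 ∨
        ∃ t ∈ capN, (s ∩ t).card = 2 ∧ (t ∩ {4, 5, 6}).card = 2 := by decide
    rcases h s (hA hs) with h | h | ⟨t, ht, h1, h2⟩
    · exact h ▸ hs
    · exact hcl s hs _ (by decide) h
    · exact hcl t (hcl s hs t ht h1) _ (by decide) h2
  apply Finset.Subset.antisymm hA
  intro t ht
  have h : ∀ t ∈ capN, t = {4, 5, 6} ∨ (({4, 5, 6} : Finset ℕ) ∩ t).card = 2 ∨
      ∃ s ∈ capN, (({4, 5, 6} : Finset ℕ) ∩ s).card = 2 ∧ (s ∩ t).card = 2 := by decide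
  rcases h t ht with h | h | ⟨s, hs, h1, h2⟩
  · exact h ▸ hc
  · exact hcl _ hc t ht h
  · exact hcl s (hcl _ hc s hs h1) t ht h2

/-- Two marked triangles with a common edge: `{a₁, a₂, a₃}` and `{a₁, a₃, a₄}`. -/
def Conf2 (z b v x : ℕ) (M : Multiset ℕ) : Prop :=
  ∃ (T : Finset (Finset ℕ)) (a₁ a₂ a₃ a₄ : ℕ), IsSphere T ∧ a₁ ≠ a₂ ∧ a₁ ≠ a₃ ∧ a₁ ≠ a₄ ∧
    a₂ ≠ a₃ ∧ a₂ ≠ a₄ ∧ a₃ ≠ a₄ ∧ {a₁, a₂, a₃} ∈ T ∧ {a₁, a₃, a₄} ∈ T ∧
    deg T a₁ = z ∧ deg T a₂ = b ∧ deg T a₃ = v ∧ deg T a₄ = x ∧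
    (verts T \ {a₁, a₂, a₃, a₄}).val.map (deg T) = M

theorem Conf.split {z b x : ℕ} {M : Multiset ℕ} (h : Conf z b x M) :
    Conf2 (z + 1) (b + 1) 3 (x + 1) M := by
  obtain ⟨T, a, b, c, hS, hab, hac, hbc, hT, ha, hb, hc, hM⟩ := h
  obtain ⟨w, hw⟩ := exists_fresh T
  obtain ⟨wa, wb, wc⟩ := w_ne hT hw
  obtain ⟨va, vb, vc⟩ := mem_of_tri hT
  refine ⟨stack T a b c w, a, b, w, c, stack_isSphere hab hac hbc hT hw hS, hab, wa.symm, hac,
    wb.symm, hbc, wc, ?_, ?_, ?_, ?_, ?_, ?_, ?_⟩
  · rw [mem_stack]; right; left; rfl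
  · rw [mem_stack]; right; right; left; rw [Finset.pair_comm]
  · rw [deg_stack hab hac hbc hT hw]; simp [wa.symm, ha]
  · rw [deg_stack hab hac hbc hT hw]; simp [wb.symm, hb]
  · rw [deg_stack hab hac hbc hT hw]; simp
  · rw [deg_stack hab hac hbc hT hw]; simp [wc.symm, hc]
  · have h1 : verts (stack T a b c w) \ {a, b, w, c} = verts T \ {a, b, c} := by
      rw [verts_stack hT]
      ext v
      simp only [Finset.mem_sdiff, Finset.mem_insert, Finset.mem_singleton, not_or]
      constructor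
      · rintro ⟨h1 | h1, h2, h3, h4, h5⟩
        · exact absurd h1 h4
        · exact ⟨h1, h2, h3, h5⟩
      · rintro ⟨h1, h2, h3, h4⟩
        exact ⟨Or.inr h1, h2, h3, fun h => hw (h ▸ h1), h4⟩
    rw [h1, ← hM]
    apply Multiset.map_congr rfl
    intro v hv
    have hv' : v ∈ verts T \ {a, b, c} := hv
    simp only [Finset.mem_sdiff, Finset.mem_insert, Finset.mem_singleton, not_or] at hv'
    obtain ⟨h1, h2, h3, h4⟩ := hv'
    rw [deg_stack hab hac hbc hT hw]
    have hvw : v ≠ w := fun h => hw (h ▸ h1)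
    simp [hvw, h2, h3, h4]

theorem Conf2.move {z b v x : ℕ} {M : Multiset ℕ} (h : Conf2 z b v x M) :
    Conf2 (z + 1) 3 (v + 1) x ((b + 1) ::ₘ M) := by
  obtain ⟨T, a, b, c, d, hS, hab, hac, had, hbc, hbd, hcd, hT, hT2, ha, hb, hc, hd, hM⟩ := h
  obtain ⟨w, hw⟩ := exists_fresh T
  obtain ⟨wa, wb, wc⟩ := w_ne hT hw
  obtain ⟨va, vb, vc⟩ := mem_of_tri hT
  obtain ⟨-, -, vd⟩ := mem_of_tri hT2
  have wd : w ≠ d := fun h => hw (h ▸ vd)
  refine ⟨stack T a b c w, a, w, c, d, stack_isSphere hab hac hbc hT hw hS, wa.symm, hac, had,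
    wc, wd, hcd, ?_, ?_, ?_, ?_, ?_, ?_, ?_⟩
  · rw [mem_stack]; right; right; left; rw [Finset.pair_comm]
  · rw [mem_stack]; left
    refine ⟨?_, hT2⟩
    intro h
    have : d ∈ ({a, b, c} : Finset ℕ) := h ▸ (by simp)
    simp [had.symm, hbd.symm, hcd.symm] at this
  · rw [deg_stack hab hac hbc hT hw]; simp [wa.symm, ha]
  · rw [deg_stack hab hac hbc hT hw]; simp
  · rw [deg_stack hab hac hbc hT hw]; simp [wc.symm, hc]
  · rw [deg_stack hab hac hbc hT hw]; simp [wd.symm, had.symm, hbd.symm, hcd.symm, hd]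
  · have h1 : verts (stack T a b c w) \ {a, w, c, d} = insert b (verts T \ {a, b, c, d}) := by
      rw [verts_stack hT]
      ext v
      simp only [Finset.mem_sdiff, Finset.mem_insert, Finset.mem_singleton, not_or]
      constructor
      · rintro ⟨h1 | h1, h2, h3, h4, h5⟩
        · exact absurd h1 h3
        · by_cases hvb : v = b
          · exact Or.inl hvb
          · exact Or.inr ⟨h1, h2, hvb, h4, h5⟩
      · rintro (rfl | ⟨h1, h2, h3, h4, h5⟩)
        · exact ⟨Or.inr vb, hab.symm, wb.symm, hbc, hbd⟩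
        · exact ⟨Or.inr h1, h2, fun h => hw (h ▸ h1), h4, h5⟩
    rw [h1, Finset.insert_val_of_notMem (by simp), Multiset.map_cons]
    congr 1
    · rw [deg_stack hab hac hbc hT hw]; simp [wb.symm, hb]
    · rw [← hM]
      apply Multiset.map_congr rfl
      intro v hv
      have hv' : v ∈ verts T \ {a, b, c, d} := hv
      simp only [Finset.mem_sdiff, Finset.mem_insert, Finset.mem_singleton, not_or] at hv'
      obtain ⟨h1, h2, h3, h4, h5⟩ := hv'
      rw [deg_stack hab hac hbc hT hw]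
      have hvw : v ≠ w := fun h => hw (h ▸ h1)
      simp [hvw, h2, h3, h4]

theorem Conf2.cap {z b' v x : ℕ} {M : Multiset ℕ} (h : Conf2 z b' v x M) :
    Conf (z + 2) (v + 2) x ((b' + 2) ::ₘ 4 ::ₘ 4 ::ₘ 4 ::ₘ M) := by
  obtain ⟨T, a, b, c, d, hS, hab, hac, had, hbc, hbd, hcd, hT, hT2, ha, hb, hc, hd, hM⟩ := h
  obtain ⟨va, vb, vc⟩ := mem_of_tri hT
  obtain ⟨-, -, vd⟩ := mem_of_tri hT2
  -- relabel
  let g : ℕ → ℕ := fun v => if v = a then 0 else if v = b then 1 else if v = c then 2 else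
    if v = d then 3 else v + 7
  have ga : g a = 0 := by simp [g]
  have gb : g b = 1 := by simp [g, hab.symm]
  have gc : g c = 2 := by simp [g, hac.symm, hbc.symm]
  have gd : g d = 3 := by simp [g, had.symm, hbd.symm, hcd.symm]
  have go : ∀ v, v ≠ a → v ≠ b → v ≠ c → v ≠ d → g v = v + 7 := by
    intro v h1 h2 h3 h4; simp [g, h1, h2, h3, h4]
  have hg : Function.Injective g := by
    intro u v huv
    simp only [g] at huv
    split_ifs at huv <;> first | (subst_vars; rfl) | omega
  have g7 : ∀ v, g v < 4 ∨ 7 ≤ g v := by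
    intro v; simp only [g]; split_ifs <;> omega
  have hS1 := relabel_isSphere hg hS
  set T1 := relabel g T with hT1
  have f1 : ({0, 1, 2} : Finset ℕ) ∈ T1 := by
    have : ({a, b, c} : Finset ℕ).image g ∈ T1 := Finset.mem_image_of_mem _ hT
    rwa [Finset.image_insert, Finset.image_insert, Finset.image_singleton, ga, gb, gc] at this
  have f2 : ({0, 2, 3} : Finset ℕ) ∈ T1 := by
    have : ({a, c, d} : Finset ℕ).image g ∈ T1 := Finset.mem_image_of_mem _ hT2
    rwa [Finset.image_insert, Finset.image_insert, Finset.image_singleton, ga, gc, gd] at this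
  have hV : ∀ x ∈ verts T1, x < 4 ∨ 7 ≤ x := by
    intro x hx
    rw [hT1, relabel_verts] at hx
    obtain ⟨y, -, rfl⟩ := Finset.mem_image.1 hx
    exact g7 y
  have hW : Disjoint ({4, 5, 6} : Finset ℕ) (verts T1) := by
    rw [Finset.disjoint_left]
    intro x hx hx'
    have := hV x hx'
    simp only [Finset.mem_insert, Finset.mem_singleton] at hx
    omega
  have d0 : deg T1 0 = z := by rw [← ga, hT1, relabel_deg hg, ha]
  have d1 : deg T1 1 = b' := by rw [← gb, hT1, relabel_deg hg, hb]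
  have d2 : deg T1 2 = v := by rw [← gc, hT1, relabel_deg hg, hc]
  have d3 : deg T1 3 = x := by rw [← gd, hT1, relabel_deg hg, hd]
  have dW : ∀ y ∈ ({4, 5, 6} : Finset ℕ), deg T1 y = 0 := by
    intro y hy
    rw [deg, Finset.card_eq_zero, Finset.filter_eq_empty_iff]
    intro t ht hyt
    exact Finset.disjoint_left.1 hW hy (mem_verts.2 ⟨t, ht, hyt⟩)
  have hrest : (verts T1 \ {0, 1, 2, 3}).val.map (deg T1) = M := by
    have e1 : verts T1 \ {0, 1, 2, 3} = (verts T \ {a, b, c, d}).image g := by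
      rw [Finset.image_sdiff _ _ hg, hT1, relabel_verts]
      congr 1
      rw [Finset.image_insert, Finset.image_insert, Finset.image_insert, Finset.image_singleton,
        ga, gb, gc, gd]
    rw [e1, Finset.image_val_of_injOn hg.injOn, Multiset.map_map, ← hM]
    apply Multiset.map_congr rfl
    intro y _
    exact relabel_deg hg y
  have c7 : ∀ t ∈ capN, ∃ v ∈ t, v ∈ ({4, 5, 6} : Finset ℕ) := by decide
  have hS2 : IsSphere (T1.erase {0, 1, 2} ∪ capN) := by
    apply plug_isSphere (W := {4, 5, 6}) hS1 f1 hW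
    · decide
    · decide
    · decide
    · exact capN_conn
    · decide
    · decide
    · exact c7
  have hdeg := fun y => plug_deg (N := capN) f1 hW c7 y
  have hvert : verts (T1.erase {0, 1, 2} ∪ capN) = verts T1 ∪ {4, 5, 6} :=
    plug_verts f1 (by decide)
  have n0 : deg capN 0 = 3 := by decide
  have n1 : deg capN 1 = 3 := by decide
  have n2 : deg capN 2 = 3 := by decide
  have n3 : deg capN 3 = 0 := by decide
  have n4 : deg capN 4 = 4 := by decide
  have n5 : deg capN 5 = 4 := by decide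
  have n6 : deg capN 6 = 4 := by decide
  have nbig : ∀ y, 7 ≤ y → deg capN y = 0 := by
    intro y hy
    rw [deg, Finset.card_eq_zero, Finset.filter_eq_empty_iff]
    intro t ht hyt
    have : ∀ t ∈ capN, ∀ y ∈ t, y < 7 := by decide
    have := this t ht y hyt
    omega
  have m0 : (0 : ℕ) ∈ verts T1 := mem_verts.2 ⟨_, f1, by simp⟩
  have m1 : (1 : ℕ) ∈ verts T1 := mem_verts.2 ⟨_, f1, by simp⟩
  refine ⟨_, 0, 2, 3, hS2, by decide, by decide, by decide, ?_, ?_, ?_, ?_, ?_⟩
  · rw [mem_plug]; left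
    exact ⟨by decide, f2⟩
  · have := hdeg 0
    rw [d0, n0, if_pos (by decide)] at this
    omega
  · have := hdeg 2
    rw [d2, n2, if_pos (by decide)] at this
    omega
  · have := hdeg 3
    rw [d3, n3, if_neg (by decide)] at this
    omega
  · have e1 : verts (T1.erase {0, 1, 2} ∪ capN) \ {0, 2, 3} =
        insert 1 (insert 4 (insert 5 (insert 6 (verts T1 \ {0, 1, 2, 3})))) := by
      rw [hvert]
      ext y
      simp only [Finset.mem_sdiff, Finset.mem_union, Finset.mem_insert, Finset.mem_singleton,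
        not_or]
      constructor
      · rintro ⟨h1, h2, h3, h4⟩
        by_cases h5 : y = 1
        · exact Or.inl h5
        · right
          rcases h1 with h1 | h1 | h1 | h1
          · exact Or.inr (Or.inr (Or.inr ⟨h1, h2, h5, h3, h4⟩))
          · exact Or.inl h1
          · exact Or.inr (Or.inl h1)
          · exact Or.inr (Or.inr (Or.inl h1))
      · rintro (rfl | rfl | rfl | rfl | ⟨h1, h2, h3, h4, h5⟩)
        · exact ⟨Or.inl m1, by decide, by decide, by decide⟩
        · exact ⟨Or.inr (by simp), by decide, by decide, by decide⟩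
        · exact ⟨Or.inr (by simp), by decide, by decide, by decide⟩
        · exact ⟨Or.inr (by simp), by decide, by decide, by decide⟩
        · exact ⟨Or.inl h1, h2, h4, h5⟩
    have q4 : (4 : ℕ) ∉ verts T1 := fun h => by have := hV 4 h; omega
    have q5 : (5 : ℕ) ∉ verts T1 := fun h => by have := hV 5 h; omega
    have q6 : (6 : ℕ) ∉ verts T1 := fun h => by have := hV 6 h; omega
    rw [e1, Finset.insert_val_of_notMem (by simp), Multiset.map_cons,
      Finset.insert_val_of_notMem (by simp [q4]), Multiset.map_cons,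
      Finset.insert_val_of_notMem (by simp [q5]), Multiset.map_cons,
      Finset.insert_val_of_notMem (by simp [q6]), Multiset.map_cons]
    congr 1
    · have := hdeg 1
      rw [d1, n1, if_pos (by decide)] at this
      omega
    congr 1
    · have := hdeg 4
      rw [dW 4 (by decide), n4, if_neg (by decide)] at this
      omega
    congr 1
    · have := hdeg 5
      rw [dW 5 (by decide), n5, if_neg (by decide)] at this
      omega
    congr 1
    · have := hdeg 6
      rw [dW 6 (by decide), n6, if_neg (by decide)] at this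
      omega
    · rw [← hrest]
      apply Multiset.map_congr rfl
      intro y hy
      have hy' : y ∈ verts T1 \ {0, 1, 2, 3} := hy
      simp only [Finset.mem_sdiff, Finset.mem_insert, Finset.mem_singleton, not_or] at hy'
      obtain ⟨h1, h2, h3, h4, h5⟩ := hy'
      have := hV y h1
      have h7 : 7 ≤ y := by omega
      have := hdeg y
      rw [nbig y h7, if_neg (by
        simp only [Finset.mem_insert, Finset.mem_singleton]; omega)] at this
      omega

/-- The triple junction. -/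
theorem Conf.junction {z x : ℕ} {M : Multiset ℕ} (h : Conf z 3 x M) (j : ℕ) :
    Conf (7 + j) 3 (x + 2) ((z + 5 + j) ::ₘ (M + Multiset.replicate 2 5 +
      Multiset.replicate (j + 3) 4)) := by
  have h1 : Conf2 (z + 2) 3 4 (x + 1) (5 ::ₘ M) := h.split.move
  have h2 : ∀ j, Conf2 (z + 2 + j) 3 (4 + j) (x + 1) ((5 ::ₘ M) + Multiset.replicate j 4) := by
    intro j
    induction j with
    | zero => simpa using h1
    | succ j ih =>
      rw [Multiset.replicate_succ, Multiset.add_cons]
      exact ih.move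
  have h3 := (h2 j).cap.rot.move1
  have e1 : 4 + j + 2 + 1 = 7 + j := by omega
  have e2 : z + 2 + j + 2 + 1 = z + 5 + j := by omega
  rw [e1, e2] at h3
  refine h3.congr ?_
  intro k
  simp only [Multiset.count_add, Multiset.count_cons, Multiset.replicate_succ,
    Multiset.replicate_zero, Multiset.count_zero, Nat.reduceAdd]
  omega

end Pool.Agent.Helper79.HX
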