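import Pool.Agent.Helper79.HX.Moves

/-!
# Counting in triangulated spheres
-/

namespace Pool.Agent.Helper79.HX

open Finset

/-- The sum of the degrees is three times the number of triangles. -/
theorem sum_deg {T : Finset (Finset ℕ)} (hS : IsSphere T) :
    ∑ v ∈ verts T, deg T v = 3 * T.card := by
  have h1 : ∑ v ∈ verts T, deg T v = ∑ v ∈ verts T, ∑ t ∈ T, if v ∈ t then 1 else 0 := by
    apply Finset.sum_congr rfl
    intro v _
    rw [deg, Finset.card_filter]
  rw [h1, Finset.sum_comm]
  have h2 : ∀ t ∈ T, (∑ v ∈ verts T, if v ∈ t then 1 else 0) = 3 := by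
    intro t ht
    rw [← Finset.card_filter, ← hS.tri t ht]
    congr 1
    ext v
    simp only [Finset.mem_filter]
    exact ⟨fun h => h.2, fun h => ⟨mem_verts.2 ⟨t, ht, h⟩, h⟩⟩
  rw [Finset.sum_congr rfl h2, Finset.sum_const, smul_eq_mul, mul_comm]

theorem sum_six_sub {T : Finset (Finset ℕ)} (hS : IsSphere T) :
    ∑ v ∈ verts T, ((6 : ℤ) - (deg T v : ℤ)) = 12 := by
  rw [Finset.sum_sub_distrib, Finset.sum_const, nsmul_eq_mul]
  have h1 : (∑ v ∈ verts T, (deg T v : ℤ)) = 3 * (T.card : ℤ) := by
    have := sum_deg hS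
    exact_mod_cast this
  have h2 : 2 * ((verts T).card : ℤ) = (T.card : ℤ) + 4 := by exact_mod_cast hS.euler
  rw [h1]
  linarith

/-- A vertex of degree `k` has `k` neighbours, so there are at least `k + 1` vertices. -/
theorem deg_lt {T : Finset (Finset ℕ)} (hS : IsSphere T) {v : ℕ} (hv : v ∈ verts T) :
    deg T v + 1 ≤ (verts T).card := by
  set Tv := T.filter (fun t => v ∈ t) with hTv
  set N := (verts T).filter (fun w => w ≠ v ∧ ∃ t ∈ T, v ∈ t ∧ w ∈ t) with hN
  have h1 : ∑ t ∈ Tv, ∑ w ∈ N, (if w ∈ t then 1 else 0) = 2 * deg T v := by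
    have : ∀ t ∈ Tv, ∑ w ∈ N, (if w ∈ t then 1 else 0) = 2 := by
      intro t ht
      obtain ⟨htT, hvt⟩ := Finset.mem_filter.1 ht
      rw [← Finset.card_filter]
      have : N.filter (fun w => w ∈ t) = t.erase v := by
        ext w
        simp only [hN, Finset.mem_filter, Finset.mem_erase]
        constructor
        · rintro ⟨⟨-, h1, -⟩, h2⟩; exact ⟨h1, h2⟩
        · rintro ⟨h1, h2⟩
          exact ⟨⟨mem_verts.2 ⟨t, htT, h2⟩, h1, t, htT, hvt, h2⟩, h2⟩
      rw [this, Finset.card_erase_of_mem hvt, hS.tri t htT]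
    rw [Finset.sum_congr rfl this, Finset.sum_const, smul_eq_mul, mul_comm]
    rfl
  have h2 : ∑ t ∈ Tv, ∑ w ∈ N, (if w ∈ t then 1 else 0) = 2 * N.card := by
    rw [Finset.sum_comm]
    have : ∀ w ∈ N, ∑ t ∈ Tv, (if w ∈ t then 1 else 0) = 2 := by
      intro w hw
      obtain ⟨-, hwv, t, htT, hvt, hwt⟩ := Finset.mem_filter.1 hw
      rw [← Finset.card_filter, hTv, Finset.filter_filter]
      have he := hS.edge t htT {v, w} (by
        intro z hz; simp only [Finset.mem_insert, Finset.mem_singleton] at hz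
        rcases hz with rfl | rfl <;> assumption) (Finset.card_pair (Ne.symm hwv))
      rw [← he]
      congr 1
      ext s
      simp only [Finset.mem_filter, Finset.insert_subset_iff, Finset.singleton_subset_iff]
    rw [Finset.sum_congr rfl this, Finset.sum_const, smul_eq_mul, mul_comm]
  have h3 : deg T v = N.card := by omega
  have h4 : insert v N ⊆ verts T := by
    intro w hw
    rcases Finset.mem_insert.1 hw with rfl | hw
    · exact hv
    · exact (Finset.mem_filter.1 hw).1
  have h5 := Finset.card_le_card h4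
  rw [Finset.card_insert_of_notMem (by simp [hN])] at h5
  omega

/-- The multiset of degrees of a configuration. -/
theorem Conf.degrees {z x y : ℕ} {M : Multiset ℕ} (h : Conf z x y M) :
    ∃ T, IsSphere T ∧ (verts T).val.map (deg T) = z ::ₘ x ::ₘ y ::ₘ M := by
  obtain ⟨T, a, b, c, hS, hab, hac, hbc, hT, ha, hb, hc, hM⟩ := h
  refine ⟨T, hS, ?_⟩
  obtain ⟨va, vb, vc⟩ := mem_of_tri hT
  have e : verts T = insert a (insert b (insert c (verts T \ {a, b, c}))) := by
    ext v
    simp only [Finset.mem_insert, Finset.mem_sdiff, Finset.mem_singleton, not_or]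
    constructor
    · intro hv
      by_cases h1 : v = a
      · exact Or.inl h1
      · by_cases h2 : v = b
        · exact Or.inr (Or.inl h2)
        · by_cases h3 : v = c
          · exact Or.inr (Or.inr (Or.inl h3))
          · exact Or.inr (Or.inr (Or.inr ⟨hv, h1, h2, h3⟩))
    · rintro (rfl | rfl | rfl | ⟨h, -⟩) <;> assumption
  conv_lhs => rw [e]
  rw [Finset.insert_val_of_notMem (by simp [hab, hac]), Multiset.map_cons,
    Finset.insert_val_of_notMem (by simp [hbc]), Multiset.map_cons,
    Finset.insert_val_of_notMem (by simp), Multiset.map_cons, ha, hb, hc, hM]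

end Pool.Agent.Helper79.HX
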