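import Pool.Agent.Helper79.HX.Blocks

/-!
# Many large faces
-/

namespace Pool.Agent.Helper79.HX

open Finset

theorem Conf.quads {z x : ℕ} {M : Multiset ℕ} (h : Conf z 3 x M) (j : ℕ) :
    Conf (z + j) 3 (x + j) (M + Multiset.replicate j 4) := by
  induction j with
  | zero => simpa using h
  | succ j ih =>
    rw [Multiset.replicate_succ, Multiset.add_cons]
    exact ih.move1

theorem Conf.tris {z x : ℕ} {M : Multiset ℕ} (h : Conf z 3 x M) (j : ℕ) :
    Conf (z + 3 * j) 3 (x + 2 * j) (M + Multiset.replicate j 3 + Multiset.replicate (2 * j) 5) := by
  induction j with
  | zero => simpa using h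
  | succ j ih =>
    refine (ih.move2.move1).congr ?_
    intro k
    have e : 2 * (j + 1) = 2 * j + 1 + 1 := by ring
    simp only [e, Multiset.replicate_succ, Multiset.count_add, Multiset.count_cons, Nat.reduceAdd]
    omega

/-- the interface between two consecutive hubs -/
theorem Conf.iface {M : Multiset ℕ} (h : Conf 5 3 4 M) {k l jt jq : ℕ}
    (hk : jq + 3 * jt + 6 ≤ k) (hl : jq + 2 * jt + 6 ≤ l) :
    ∃ p, Conf 5 3 4 (M + Multiset.replicate p 5 + Multiset.replicate jt 3 +
      Multiset.replicate jq 4 + {k, l}) := by
  have h1 := (((h.grow (k - 6 - jq - 3 * jt)).quads jq).tris jt).sw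
  have e : 5 + (k - 6 - jq - 3 * jt) + jq + 3 * jt + 1 = k := by omega
  rw [e] at h1
  obtain ⟨p, h2⟩ := h1.close (k := l) (by omega)
  refine ⟨(k - 6 - jq - 3 * jt) + 2 * jt + p, h2.congr ?_⟩
  intro j
  simp only [Multiset.count_add, Multiset.count_cons, Multiset.count_singleton,
    Multiset.insert_eq_cons, Multiset.replicate_add]
  omega

/-- pentagon blocks for all large faces -/
theorem Conf.rest (L : List ℕ) : ∀ {M : Multiset ℕ}, (∀ k ∈ L, 7 ≤ k) → Conf 5 3 4 M →
    ∃ p, Conf 5 3 4 (M + Multiset.replicate p 5 + (L : Multiset ℕ)) := by
  induction L with
  | nil => intro M _ h; exact ⟨0, by simpa using h⟩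
  | cons k L ih =>
    intro M h7 h
    obtain ⟨p, h1⟩ := h.close (k := k) (by have := h7 k (by simp); omega)
    obtain ⟨p', h2⟩ := ih (fun k' hk' => h7 k' (List.mem_cons_of_mem _ hk')) h1
    refine ⟨p + p', h2.congr ?_⟩
    intro j
    simp only [Multiset.count_add, Multiset.count_cons, Multiset.count_singleton,
      Multiset.replicate_add, ← Multiset.cons_coe]
    omega

/-- the standard end -/
theorem Conf.endStd {M : Multiset ℕ} (h : Conf 5 3 4 M) : Fin' (M + {3, 4, 5}) := by
  refine h.fin.congr ?_
  intro j
  simp only [Multiset.count_add, Multiset.count_cons, Multiset.count_singleton,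
    Multiset.insert_eq_cons]
  omega

/-- the capacity of all large faces but the first one -/
def cap (L : List ℕ) : ℕ := (L.tail.map (fun k => k - 6)).sum

theorem cap_cons_cons (k l : ℕ) (L : List ℕ) (h : ∀ k' ∈ L.head?, k' ≤ l) :
    cap (k :: l :: L) ≤ 2 * (l - 6) + cap L := by
  unfold cap
  cases L with
  | nil => simp; omega
  | cons m L =>
    have := h m (by simp)
    simp only [List.tail_cons, List.map_cons, List.sum_cons]
    omega

/-- Many large faces: all triangles and quadrangles are absorbed without hexagons. -/
theorem many : ∀ (N : ℕ) (L : List ℕ) (A B : ℕ) (M : Multiset ℕ), L.length ≤ N →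
    (∀ k ∈ L, 7 ≤ k) → L.Pairwise (fun a b => b ≤ a) → 10 * A + 2 * B ≤ cap L → Conf 5 3 4 M →
    ∃ p, Fin' (M + {3, 4, 5} + Multiset.replicate A 3 + Multiset.replicate B 4 +
      Multiset.replicate p 5 + (L : Multiset ℕ)) := by
  intro N
  induction N with
  | zero =>
    intro L A B M hN h7 hs hc h
    have hL : L = [] := List.length_eq_zero_iff.1 (by omega)
    subst hL
    have : cap [] = 0 := rfl
    have hA : A = 0 := by omega
    have hB : B = 0 := by omega
    subst hA hB
    exact ⟨0, by simpa using h.endStd⟩
  | succ N ih =>
    intro L A B M hN h7 hs hc h
    by_cases hAB : A = 0 ∧ B = 0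
    · obtain ⟨rfl, rfl⟩ := hAB
      obtain ⟨p, h1⟩ := h.rest L h7
      refine ⟨p, h1.endStd.congr ?_⟩
      intro j
      simp only [Multiset.count_add, Multiset.replicate_zero, Multiset.count_zero]
      omega
    match L, hN, h7, hs, hc with
    | [], hN, h7, hs, hc =>
      exfalso
      have : cap [] = 0 := rfl
      omega
    | [k], hN, h7, hs, hc =>
      exfalso
      have : cap [k] = 0 := rfl
      omega
    | k :: l :: L, hN, h7, hs, hc =>
      have hk7 : 7 ≤ k := h7 k (by simp)
      have hl7 : 7 ≤ l := h7 l (by simp)
      have h7' : ∀ k' ∈ L, 7 ≤ k' := fun k' hk' => h7 k' (by simp [hk'])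
      obtain ⟨hs1, hs2⟩ := List.pairwise_cons.1 hs
      obtain ⟨hs3, hs4⟩ := List.pairwise_cons.1 hs2
      have hlk : l ≤ k := hs1 l (by simp)
      have hhead : ∀ k' ∈ L.head?, k' ≤ l := fun k' hk' => hs3 k' (List.mem_of_mem_head? hk')
      have hcc := cap_cons_cons k l L hhead
      simp only [List.length_cons] at hN
      by_cases hX : A = 0 ∨ 9 ≤ l
      · -- the general interface
        obtain ⟨jt, hjt⟩ : ∃ jt, jt = min A ((l - 6) / 3) := ⟨_, rfl⟩
        obtain ⟨jq, hjq⟩ : ∃ jq, jq = min B (l - 6 - 3 * jt) := ⟨_, rfl⟩
        have e1 : jt ≤ A := by omega
        have e2 : jq ≤ B := by omega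
        have e3 : jq + 3 * jt ≤ l - 6 := by omega
        obtain ⟨p, h1⟩ := h.iface (k := k) (l := l) (jt := jt) (jq := jq) (by omega) (by omega)
        obtain ⟨p', h2⟩ := ih L (A - jt) (B - jq) _ (by omega) h7' hs4 (by
          rcases Nat.eq_zero_or_pos (A - jt) with h0 | h0
          · rcases Nat.eq_zero_or_pos (B - jq) with h0' | h0'
            · omega
            · have : jq = l - 6 - 3 * jt := by omega
              omega
          · have h3 : jt = (l - 6) / 3 := by omega
            have h4 : 9 ≤ l := by omega
            have h5 : l - 6 ≤ 3 * jt + 2 := by omega
            have h6 : 1 ≤ jt := by omega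
            omega) h1
        refine ⟨p + p', h2.congr ?_⟩
        intro j
        obtain ⟨A', rfl⟩ : ∃ A', A = A' + jt := ⟨A - jt, by omega⟩
        obtain ⟨B', rfl⟩ : ∃ B', B = B' + jq := ⟨B - jq, by omega⟩
        simp only [Nat.add_sub_cancel, Multiset.count_add, Multiset.count_cons,
          Multiset.count_singleton, Multiset.insert_eq_cons, Multiset.replicate_add,
          ← Multiset.cons_coe]
        omega
      · have hA : 1 ≤ A := by omega
        have hl8 : l ≤ 8 := by omega
        match L, hN, h7', hs3, hs4, hhead, hcc, hc, hs1 with
        | [], hN, h7', hs3, hs4, hhead, hcc, hc, hs1 =>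
          exfalso
          have : cap ([] : List ℕ) = 0 := rfl
          omega
        | m :: L, hN, h7', hs3, hs4, hhead, hcc, hc, hs1 =>
          have hm7 : 7 ≤ m := h7' m (by simp)
          have hml : m ≤ l := hs3 m (by simp)
          obtain ⟨hs5, hs6⟩ := List.pairwise_cons.1 hs4
          have h7'' : ∀ k' ∈ L, 7 ≤ k' := fun k' hk' => h7' k' (by simp [hk'])
          simp only [List.length_cons] at hN
          have hcap : cap (k :: l :: m :: L) = (l - 6) + (m - 6) + (L.map (fun k => k - 6)).sum := by
            simp only [cap, List.tail_cons, List.map_cons, List.sum_cons]; omega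
          have hcapL : (L.map (fun k => k - 6)).sum ≤ (m - 6) + cap L := by
            cases L with
            | nil => simp
            | cons r L =>
              have := hs5 r (by simp)
              simp only [cap, List.tail_cons, List.map_cons, List.sum_cons]
              omega
          rcases Nat.lt_or_ge k 8 with hk | hk
          · -- all faces are heptagons
            have hk' : k = 7 := by omega
            have hl' : l = 7 := by omega
            have hm' : m = 7 := by omega
            subst hk' hl' hm'
            rcases Nat.eq_zero_or_pos B with hB | hB
            · subst hB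
              rcases Nat.lt_or_ge A 2 with hA2 | hA2
              · have hA1 : A = 1 := by omega
                subst hA1
                obtain ⟨p, h1⟩ := h.rest L h7''
                refine ⟨p, h1.end7.congr ?_⟩
                intro j
                simp only [Multiset.count_add, Multiset.count_cons, Multiset.count_singleton,
                  Multiset.insert_eq_cons, Multiset.replicate_zero, Multiset.count_zero,
                  ← Multiset.cons_coe, Multiset.replicate_one]
                omega
              · -- six heptagons
                obtain ⟨a1, a2, a3, L, rfl⟩ : ∃ a1 a2 a3 L', L = a1 :: a2 :: a3 :: L' := by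
                  match L, hcapL, hcap with
                  | [], hcapL, hcap =>
                    exfalso
                    simp only [List.map_nil, List.sum_nil] at hcap
                    omega
                  | [a1], hcapL, hcap =>
                    exfalso
                    have : cap [a1] = 0 := rfl
                    omega
                  | [a1, a2], hcapL, hcap =>
                    exfalso
                    have h1 := hs5 a1 (by simp)
                    have h2 := hs5 a2 (by simp)
                    simp only [List.map_nil, List.sum_nil, List.map_cons, List.sum_cons] at hcap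
                    omega
                  | a1 :: a2 :: a3 :: L, _, _ => exact ⟨a1, a2, a3, L, rfl⟩
                have b1 : a1 = 7 := by
                  have h1 := hs5 a1 (by simp); have h2 := h7'' a1 (by simp); omega
                have b2 : a2 = 7 := by
                  have h1 := hs5 a2 (by simp); have h2 := h7'' a2 (by simp); omega
                have b3 : a3 = 7 := by
                  have h1 := hs5 a3 (by simp); have h2 := h7'' a3 (by simp); omega
                subst b1 b2 b3
                have hcap2 : cap (7 :: 7 :: 7 :: L) = 2 + (L.map (fun k => k - 6)).sum := by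
                  simp only [cap, List.tail_cons, List.map_cons, List.sum_cons]; omega
                have hcap3 : (L.map (fun k => k - 6)).sum ≤ 1 + cap L := by
                  cases L with
                  | nil => simp
                  | cons r L =>
                    have := hs5 r (by simp)
                    simp only [cap, List.tail_cons, List.map_cons, List.sum_cons]
                    omega
                simp only [List.length_cons] at hN
                obtain ⟨hs7, hs8⟩ := List.pairwise_cons.1 hs6
                obtain ⟨hs9, hs10⟩ := List.pairwise_cons.1 hs8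
                obtain ⟨hs11, hs12⟩ := List.pairwise_cons.1 hs10
                obtain ⟨A, rfl⟩ : ∃ A', A = A' + 2 := ⟨A - 2, by omega⟩
                obtain ⟨p, h1⟩ := ih L A 0 _ (by omega) (fun k' hk' => h7'' k' (by simp [hk']))
                  hs12 (by omega) h.tri77
                refine ⟨p, h1.congr ?_⟩
                intro j
                simp only [Multiset.count_add, Multiset.count_cons, Multiset.count_singleton,
                  Multiset.insert_eq_cons, Multiset.replicate_zero, Multiset.count_zero,
                  ← Multiset.cons_coe, Multiset.replicate_succ]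
                omega
            · obtain ⟨B, rfl⟩ : ∃ B', B = B' + 1 := ⟨B - 1, by omega⟩
              obtain ⟨p, h1⟩ := h.quad (k := 7) (l := 7) le_rfl le_rfl
              obtain ⟨p', h2⟩ := ih (7 :: L) A B _ (by simp; omega) h7' hs4 (by omega) h1
              refine ⟨p + p', h2.congr ?_⟩
              intro j
              simp only [Multiset.count_add, Multiset.count_cons, Multiset.count_singleton,
                Multiset.insert_eq_cons, Multiset.replicate_add, Multiset.replicate_succ,
                ← Multiset.cons_coe]
              omega
          · obtain ⟨A, rfl⟩ : ∃ A', A = A' + 1 := ⟨A - 1, by omega⟩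
            obtain ⟨p, h1⟩ : ∃ p, Conf 5 3 4 (M + Multiset.replicate p 5 + {3, k, l, m}) := by
              rcases Nat.lt_or_ge m 8 with hm | hm
              · have hm' : m = 7 := by omega
                obtain ⟨p, h1⟩ := h.tri1 (k := l) (l := k) hl7 hk
                refine ⟨p, h1.congr ?_⟩
                intro j
                simp only [hm', Multiset.count_add, Multiset.count_cons,
                  Multiset.count_singleton, Multiset.insert_eq_cons]
                omega
              · have hm' : m = 8 := by omega
                have hl' : l = 8 := by omega
                obtain ⟨p, h1⟩ := h.tri2 (k := k) (l := 8) (by omega) (by omega)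
                exact ⟨p, by rw [hm', hl']; exact h1⟩
            obtain ⟨p', h2⟩ := ih L A B _ (by omega) h7'' hs6 (by omega) h1
            refine ⟨p + p', h2.congr ?_⟩
            intro j
            simp only [Multiset.count_add, Multiset.count_cons, Multiset.count_singleton,
              Multiset.insert_eq_cons, Multiset.replicate_add, Multiset.replicate_succ,
              ← Multiset.cons_coe]
            omega

end Pool.Agent.Helper79.HX
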