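import Pool.Agent.Helper79.HX.Conf

/-!
# The construction
-/

namespace Pool.Agent.Helper79.HX

open Finset

/-- The boundary of the tetrahedron. -/
def K4 : Finset (Finset ℕ) := {{0, 1, 2}, {0, 1, 3}, {0, 2, 3}, {1, 2, 3}}

theorem K4_sphere : IsSphere K4 := by
  refine ⟨⟨{0, 1, 2}, by decide⟩, by decide, ?_, ?_, by decide⟩
  · have h : ∀ t ∈ K4, ∀ e ∈ t.powersetCard 2, (K4.filter (fun s => e ⊆ s)).card = 2 := by decide
    intro t ht e het he
    exact h t ht e (Finset.mem_powersetCard.2 ⟨het, he⟩)
  · intro A hA hne hcl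
    obtain ⟨s, hs⟩ := hne
    have h : ∀ s ∈ K4, ∀ t ∈ K4, s ≠ t → (s ∩ t).card = 2 := by decide
    apply Finset.Subset.antisymm hA
    intro t ht
    by_cases hst : s = t
    · exact hst ▸ hs
    · exact hcl s hs t ht (h s (hA hs) t ht hst)

theorem conf_K4 : Conf 3 3 3 {3} :=
  ⟨K4, 0, 1, 2, K4_sphere, by decide, by decide, by decide, by decide, by decide, by decide,
    by decide, by decide⟩

/-- The tubes: cubes of paths. -/
theorem conf_tube (n : ℕ) : Conf 5 3 4 ({3, 4, 5} + Multiset.replicate n 6) := by
  induction n with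
  | zero =>
    have h1 : Conf 4 3 4 (4 ::ₘ {3}) := conf_K4.move1
    have h2 : Conf 4 4 3 (4 ::ₘ {3}) := h1.swap
    have h3 : Conf 5 3 4 (5 ::ₘ 4 ::ₘ {3}) := h2.move1
    have e : (({3, 4, 5} : Multiset ℕ) + Multiset.replicate 0 6) = 5 ::ₘ 4 ::ₘ {3} := by decide
    rw [e]; exact h3
  | succ n ih =>
    -- complete the vertex of degree 5
    have h1 : Conf 3 5 4 ({3, 4, 5} + Multiset.replicate n 6) := ih.rot
    have h2 : Conf 4 3 5 (6 ::ₘ ({3, 4, 5} + Multiset.replicate n 6)) := h1.move1
    have h3 : Conf 5 3 4 (6 ::ₘ ({3, 4, 5} + Multiset.replicate n 6)) := h2.swap.rot.swap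
    rw [Multiset.replicate_succ, Multiset.add_cons]
    exact h3

/-- State of the construction: marked triangle (hub, vertex of degree 3, vertex of degree `x`),
all vertices except `n` are neighbours of the hub (or the hub). -/
def G (n x : ℕ) (M : Multiset ℕ) : Prop := ∃ z, z + n = Multiset.card M + 2 ∧ Conf z 3 x M

theorem G_start (n : ℕ) : G n 4 ({3, 4, 5} + Multiset.replicate n 6) :=
  ⟨5, by simp; omega, conf_tube n⟩

theorem G.f1 {n x : ℕ} {M : Multiset ℕ} (h : G n x M) : G n (x + 1) (4 ::ₘ M) := by
  obtain ⟨z, hz, h⟩ := h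
  exact ⟨z + 1, by simp; omega, h.move1⟩

theorem G.f2 {n x : ℕ} {M : Multiset ℕ} (h : G n x M) : G n (x + 2) (5 ::ₘ 5 ::ₘ 3 ::ₘ M) := by
  obtain ⟨z, hz, h⟩ := h
  exact ⟨z + 2 + 1, by simp; omega, h.move2.move1⟩

theorem G.f3 {n x : ℕ} {M : Multiset ℕ} (h : G n x M) : G n 4 ((x + 1) ::ₘ M) := by
  obtain ⟨z, hz, h⟩ := h
  exact ⟨z + 1, by simp; omega, h.swap.move1⟩

theorem G.f4 {n x : ℕ} {M : Multiset ℕ} (h : G n x M) :
    G n 5 (5 ::ₘ (x + 2) ::ₘ 3 ::ₘ M) := by
  obtain ⟨z, hz, h⟩ := h
  exact ⟨z + 2 + 1, by simp; omega, h.swap.move2.move1⟩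

theorem G.f5 {n : ℕ} {M : Multiset ℕ} (h : G n 4 M) :
    G n 4 (6 ::ₘ 6 ::ₘ 6 ::ₘ 3 ::ₘ 6 ::ₘ 3 ::ₘ M) := by
  obtain ⟨z, hz, h⟩ := h
  exact ⟨z + 2 + 2 + 1 + 1, by simp; omega, h.swap.move2.move2.swap.move1.swap.move1⟩

/-- Transport along an equality of multisets, checked on multiplicities. -/
theorem G.congr {n x : ℕ} {M M' : Multiset ℕ} (h : G n x M)
    (e : ∀ k, M.count k = M'.count k) : G n x M' := by
  have : M = M' := Multiset.ext.2 e
  exact this ▸ h

theorem G.five {n : ℕ} {M : Multiset ℕ} (h : G n 4 M) (C : ℕ) :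
    G n 4 (M + Multiset.replicate C 5) := by
  induction C with
  | zero => simpa using h
  | succ C ih =>
    rw [Multiset.replicate_succ, Multiset.add_cons]
    exact ih.f3

theorem G.four {n : ℕ} {M : Multiset ℕ} (h : G n 4 M) (B : ℕ) :
    G n 4 (M + Multiset.replicate B 4 + Multiset.replicate B 6) := by
  induction B with
  | zero => simpa using h
  | succ B ih =>
    refine (ih.f1.f3).congr ?_
    intro k
    simp only [Multiset.replicate_succ, Multiset.count_add, Multiset.count_cons, Nat.reduceAdd]
    omega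

theorem G.three {n : ℕ} (A : ℕ) : ∀ {M : Multiset ℕ}, G n 4 M →
    ∃ hh, G n 4 (M + Multiset.replicate A 3 + {5} + Multiset.replicate hh 6) := by
  induction A using Nat.strong_induction_on with
  | _ A ih =>
    intro M h
    match A, ih with
    | 0, _ =>
      refine ⟨0, (h.f3).congr ?_⟩
      intro k
      simp [Multiset.count_cons, Multiset.count_add, Multiset.count_singleton]
    | 1, _ =>
      refine ⟨2, (h.f4.f3).congr ?_⟩
      intro k
      simp only [Multiset.count_cons, Multiset.count_add, Multiset.count_singleton,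
        Multiset.replicate_succ, Multiset.replicate_zero, Multiset.count_zero, Nat.reduceAdd]
      omega
    | A + 2, ih =>
      obtain ⟨hh, h2⟩ := ih A (by omega) h.f5
      refine ⟨hh + 4, h2.congr ?_⟩
      intro k
      simp only [Multiset.count_cons, Multiset.count_add, Multiset.count_singleton,
        Multiset.replicate_succ]
      omega

/-- The rest of the construction, once all the large degrees are done. -/
theorem G.finish {n : ℕ} {M : Multiset ℕ} (h : G n 4 M) (A B C : ℕ) (hC : 1 ≤ C) :
    ∃ hh, G n 4 (M + Multiset.replicate A 3 + Multiset.replicate B 4 + Multiset.replicate C 5 +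
      Multiset.replicate hh 6) := by
  obtain ⟨hh, h1⟩ := h.three A
  have h2 := (h1.four B).five (C - 1)
  refine ⟨hh + B, h2.congr ?_⟩
  intro k
  obtain ⟨C, rfl⟩ : ∃ D, C = D + 1 := ⟨C - 1, by omega⟩
  simp only [Nat.add_sub_cancel, Multiset.replicate_succ, Multiset.replicate_add,
    Multiset.count_add, Multiset.count_cons, Multiset.count_singleton]
  omega

/-- State of the construction: marked triangle (hub, vertex of degree 4, vertex of degree `x`),
all vertices except `n` are neighbours of the hub (or the hub). -/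
def H (n x : ℕ) (M : Multiset ℕ) : Prop := ∃ z, z + n = Multiset.card M + 2 ∧ Conf z 4 x M

theorem H.congr {n x : ℕ} {M M' : Multiset ℕ} (h : H n x M)
    (e : ∀ k, M.count k = M'.count k) : H n x M' := by
  have : M = M' := Multiset.ext.2 e
  exact this ▸ h

/-- switch to the mode `H` -/
theorem G.s {n x : ℕ} {M : Multiset ℕ} (h : G n x M) : H n (x + 1) (5 ::ₘ 3 ::ₘ M) := by
  obtain ⟨z, hz, h⟩ := h
  exact ⟨z + 2, by simp; omega, h.move2⟩

/-- complete the large vertex with an ear, and switch to the mode `H` -/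
theorem G.s' {n x : ℕ} {M : Multiset ℕ} (h : G n x M) : H n 4 ((x + 2) ::ₘ 3 ::ₘ M) := by
  obtain ⟨z, hz, h⟩ := h
  exact ⟨z + 2, by simp; omega, h.swap.move2⟩

theorem H.h1 {n x : ℕ} {M : Multiset ℕ} (h : H n x M) : H n (x + 1) (6 ::ₘ 3 ::ₘ M) := by
  obtain ⟨z, hz, h⟩ := h
  exact ⟨z + 2, by simp; omega, h.move2⟩

theorem H.h3 {n x : ℕ} {M : Multiset ℕ} (h : H n x M) : H n 5 ((x + 2) ::ₘ 3 ::ₘ M) := by
  obtain ⟨z, hz, h⟩ := h
  exact ⟨z + 2, by simp; omega, h.swap.move2⟩

theorem H.end5 {n : ℕ} {M : Multiset ℕ} (h : H n 5 M) : G n 4 (6 ::ₘ 6 ::ₘ M) := by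
  obtain ⟨z, hz, h⟩ := h
  exact ⟨z + 1 + 1, by simp; omega, h.swap.move1.swap.move1⟩

theorem H.end4 {n : ℕ} {M : Multiset ℕ} (h : H n 4 M) : G n 4 (6 ::ₘ 5 ::ₘ M) := by
  obtain ⟨z, hz, h⟩ := h
  exact ⟨z + 1 + 1, by simp; omega, h.move1.swap.move1⟩

/-- The construction in the mode `H`. -/
theorem H.main {n : ℕ} : ∀ (N : ℕ) (Ds : List ℕ) (A C x : ℕ) (M : Multiset ℕ),
    A + Ds.length ≤ N → (∀ D ∈ Ds, 7 ≤ D) → H n x M → 4 ≤ x → (Ds = [] → x ≤ 5) →
    (∀ D ∈ Ds.head?, x + 2 ≤ D) → (Ds.map (fun D => D - 5)).sum + 4 ≤ A + x →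
    1 ≤ C → (x = 4 → 2 ≤ C) →
    ∃ hh, G n 4 (M + Multiset.replicate A 3 + Multiset.replicate C 5 +
      Multiset.replicate hh 6 + (Ds : Multiset ℕ)) := by
  intro N
  induction N with
  | zero =>
    intro Ds A C x M hN _ hG hx hx5 _ _ hC hC2
    have hDs : Ds = [] := by
      have : Ds.length = 0 := by omega
      exact List.length_eq_zero_iff.1 this
    subst hDs
    have hA : A = 0 := by omega
    subst hA
    have hx' := hx5 rfl
    obtain rfl | rfl : x = 4 ∨ x = 5 := by omega
    · have := hC2 rfl
      obtain ⟨C, rfl⟩ : ∃ C', C = C' + 1 := ⟨C - 1, by omega⟩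
      obtain ⟨hh, h⟩ := hG.end4.finish 0 0 C (by omega)
      refine ⟨hh + 1, h.congr ?_⟩
      intro k
      simp only [Multiset.replicate_succ, Multiset.replicate_zero, Multiset.count_add,
        Multiset.count_cons, Multiset.coe_nil, Multiset.count_zero]
      omega
    · obtain ⟨hh, h⟩ := hG.end5.finish 0 0 C hC
      refine ⟨hh + 2, h.congr ?_⟩
      intro k
      simp only [Multiset.replicate_succ, Multiset.replicate_zero, Multiset.count_add,
        Multiset.count_cons, Multiset.coe_nil, Multiset.count_zero]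
      omega
  | succ N ih =>
    intro Ds A C x M hN h7 hG hx hx5 hhead hneed hC hC2
    match Ds, hN, h7, hx5, hhead, hneed with
    | [], hN, h7, hx5, hhead, hneed =>
      have hx' := hx5 rfl
      obtain rfl | rfl : x = 4 ∨ x = 5 := by omega
      · have := hC2 rfl
        obtain ⟨C, rfl⟩ : ∃ C', C = C' + 1 := ⟨C - 1, by omega⟩
        obtain ⟨hh, h⟩ := hG.end4.finish A 0 C (by omega)
        refine ⟨hh + 1, h.congr ?_⟩
        intro k
        simp only [Multiset.replicate_succ, Multiset.replicate_zero, Multiset.count_add,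
          Multiset.count_cons, Multiset.coe_nil, Multiset.count_zero]
        omega
      · obtain ⟨hh, h⟩ := hG.end5.finish A 0 C hC
        refine ⟨hh + 2, h.congr ?_⟩
        intro k
        simp only [Multiset.replicate_succ, Multiset.replicate_zero, Multiset.count_add,
          Multiset.count_cons, Multiset.coe_nil, Multiset.count_zero]
        omega
    | D :: Ds, hN, h7, hx5, hhead, hneed =>
      have hD7 : 7 ≤ D := h7 D (by simp)
      have h7' : ∀ D' ∈ Ds, 7 ≤ D' := fun D' h => h7 D' (List.mem_cons_of_mem _ h)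
      have hxD : x + 2 ≤ D := hhead D (by simp)
      simp only [List.map_cons, List.sum_cons, List.length_cons] at hneed hN
      have hhead' : ∀ D' ∈ Ds.head?, 7 ≤ D' := by
        intro D' hD'
        exact h7' D' (List.mem_of_mem_head? hD')
      obtain ⟨A, rfl⟩ : ∃ A', A = A' + 1 := ⟨A - 1, by omega⟩
      rcases Nat.lt_or_ge (x + 2) D with hlt | hge
      · obtain ⟨hh, h⟩ := ih (D :: Ds) A C (x + 1) _ (by simp; omega) h7 hG.h1 (by omega)
          (by simp) (by simp; omega) (by simp; omega) hC (by intro h; omega)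
        refine ⟨hh + 1, h.congr ?_⟩
        intro k
        simp only [Multiset.replicate_succ, Multiset.count_add, Multiset.count_cons]
        omega
      · obtain ⟨hh, h⟩ := ih Ds A C 5 _ (by omega) h7' hG.h3 (by omega)
          (by simp) (by intro D' hD'; have := hhead' D' hD'; omega) (by omega) hC
          (by intro h; omega)
        refine ⟨hh, h.congr ?_⟩
        intro k
        have hx2 : x + 2 = D := by omega
        simp only [hx2, Multiset.replicate_succ, Multiset.count_add, Multiset.count_cons,
          ← Multiset.cons_coe]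
        omega

/-- The main construction: `t` triangles are used for a double raise. -/
theorem G.main {n : ℕ} : ∀ (N : ℕ) (Ds : List ℕ) (A B C t x : ℕ) (M : Multiset ℕ),
    A + B + Ds.length ≤ N → (∀ D ∈ Ds, 7 ≤ D) → G n x M → 4 ≤ x → (Ds = [] → x ≤ 5) →
    (∀ D ∈ Ds.head?, x + 1 ≤ D) → (Ds.map (fun D => D - 5)).sum + 4 ≤ A + B + t + x →
    t ≤ A → 2 * t + 2 ≤ C →
    ∃ hh, G n 4 (M + Multiset.replicate A 3 + Multiset.replicate B 4 + Multiset.replicate C 5 +
      Multiset.replicate hh 6 + (Ds : Multiset ℕ)) := by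
  intro N
  induction N with
  | zero =>
    intro Ds A B C t x M hN _ hG hx hx5 _ _ ht hC
    have hDs : Ds = [] := by
      have : Ds.length = 0 := by omega
      exact List.length_eq_zero_iff.1 this
    subst hDs
    have hA : A = 0 := by omega
    have hB : B = 0 := by omega
    subst hA hB
    have hx' := hx5 rfl
    obtain rfl | rfl : x = 4 ∨ x = 5 := by omega
    · obtain ⟨hh, h⟩ := hG.finish 0 0 C (by omega)
      exact ⟨hh, h.congr (by intro k; simp)⟩
    · obtain ⟨hh, h⟩ := hG.f3.finish 0 0 C (by omega)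
      refine ⟨hh + 1, h.congr ?_⟩
      intro k
      simp only [Multiset.replicate_succ, Multiset.count_add, Multiset.count_cons,
        Multiset.coe_nil, Multiset.count_zero, Nat.reduceAdd]
      omega
  | succ N ih =>
    intro Ds A B C t x M hN h7 hG hx hx5 hhead hneed ht hC
    match Ds, hN, h7, hx5, hhead, hneed with
    | [], hN, h7, hx5, hhead, hneed =>
      have hx' := hx5 rfl
      obtain rfl | rfl : x = 4 ∨ x = 5 := by omega
      · obtain ⟨hh, h⟩ := hG.finish A B C (by omega)
        exact ⟨hh, h.congr (by intro k; simp)⟩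
      · obtain ⟨hh, h⟩ := hG.f3.finish A B C (by omega)
        refine ⟨hh + 1, h.congr ?_⟩
        intro k
        simp only [Multiset.replicate_succ, Multiset.count_add, Multiset.count_cons,
          Multiset.coe_nil, Multiset.count_zero, Nat.reduceAdd]
        omega
    | D :: Ds, hN, h7, hx5, hhead, hneed =>
      have hD7 : 7 ≤ D := h7 D (by simp)
      have h7' : ∀ D' ∈ Ds, 7 ≤ D' := fun D' h => h7 D' (List.mem_cons_of_mem _ h)
      have hxD : x + 1 ≤ D := hhead D (by simp)
      simp only [List.map_cons, List.sum_cons, List.length_cons] at hneed hN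
      have hhead' : ∀ D' ∈ Ds.head?, 7 ≤ D' := by
        intro D' hD'
        exact h7' D' (List.mem_of_mem_head? hD')
      rcases Nat.lt_or_ge (x + 1) D with hlt | hge
      · -- raise
        rcases Nat.eq_zero_or_pos t with ht0 | htpos
        · subst ht0
          rcases Nat.eq_zero_or_pos B with hB | hB
          · subst hB
            have hApos : 0 < A := by omega
            obtain ⟨A, rfl⟩ : ∃ A', A = A' + 1 := ⟨A - 1, by omega⟩
            rcases Nat.lt_or_ge (x + 2) D with hlt2 | hge2
            · obtain ⟨C, rfl⟩ : ∃ C', C = C' + 1 := ⟨C - 1, by omega⟩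
              obtain ⟨hh, h⟩ := H.main _ (D :: Ds) A C (x + 1) _ le_rfl h7 hG.s (by omega)
                (by simp) (by simp; omega) (by simp; omega) (by omega) (by intro h; omega)
              refine ⟨hh, h.congr ?_⟩
              intro k
              simp only [Multiset.replicate_succ, Multiset.replicate_zero, Multiset.count_zero,
                Multiset.count_add, Multiset.count_cons]
              omega
            · obtain ⟨hh, h⟩ := H.main _ Ds A C 4 _ le_rfl h7' hG.s' (by omega)
                (by simp) (by intro D' hD'; have := hhead' D' hD'; omega) (by omega) (by omega)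
                (by omega)
              refine ⟨hh, h.congr ?_⟩
              intro k
              have hx2 : x + 2 = D := by omega
              simp only [hx2, Multiset.replicate_succ, Multiset.replicate_zero,
                Multiset.count_zero, Multiset.count_add, Multiset.count_cons,
                ← Multiset.cons_coe]
              omega
          · obtain ⟨B, rfl⟩ : ∃ B', B = B' + 1 := ⟨B - 1, by omega⟩
            obtain ⟨hh, h⟩ := ih (D :: Ds) A B C 0 (x + 1) _ (by simp; omega) h7 hG.f1 (by omega)
              (by simp) (by simp; omega) (by simp; omega) (by omega) (by omega)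
            refine ⟨hh, h.congr ?_⟩
            intro k
            simp only [Multiset.replicate_succ, Multiset.count_add, Multiset.count_cons]
            omega
        · obtain ⟨t, rfl⟩ : ∃ t', t = t' + 1 := ⟨t - 1, by omega⟩
          obtain ⟨A, rfl⟩ : ∃ A', A = A' + 1 := ⟨A - 1, by omega⟩
          rcases Nat.lt_or_ge (x + 2) D with hlt2 | hge2
          · obtain ⟨C, rfl⟩ : ∃ C', C = C' + 2 := ⟨C - 2, by omega⟩
            obtain ⟨hh, h⟩ := ih (D :: Ds) A B C t (x + 2) _ (by simp; omega) h7 hG.f2 (by omega)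
              (by simp) (by simp; omega) (by simp; omega) (by omega) (by omega)
            refine ⟨hh, h.congr ?_⟩
            intro k
            simp only [Multiset.replicate_succ, Multiset.count_add, Multiset.count_cons]
            omega
          · obtain ⟨C, rfl⟩ : ∃ C', C = C' + 1 := ⟨C - 1, by omega⟩
            obtain ⟨hh, h⟩ := ih Ds A B C t 5 _ (by omega) h7' hG.f4 (by omega)
              (by simp) (by intro D' hD'; have := hhead' D' hD'; omega) (by omega) (by omega)
              (by omega)
            refine ⟨hh, h.congr ?_⟩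
            intro k
            have hx2 : x + 2 = D := by omega
            simp only [hx2, Multiset.replicate_succ, Multiset.count_add, Multiset.count_cons,
              ← Multiset.cons_coe]
            omega
      · -- complete
        obtain ⟨hh, h⟩ := ih Ds A B C t 4 _ (by omega) h7' hG.f3 (by omega)
          (by simp) (by intro D' hD'; have := hhead' D' hD'; omega) (by omega) (by omega)
          (by omega)
        refine ⟨hh, h.congr ?_⟩
        intro k
        have hx2 : x + 1 = D := by omega
        simp only [hx2, Multiset.count_add, Multiset.count_cons, ← Multiset.cons_coe]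
        omega

end Pool.Agent.Helper79.HX
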