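import Pool.Agent.Helper79.HX.Many

/-!
# One very large face
-/

namespace Pool.Agent.Helper79.HX

open Finset

/-- leftover quadrangles -/
theorem Conf.o4 {z : ℕ} {M : Multiset ℕ} (h : Conf z 3 4 M) (j : ℕ) :
    Conf (z + 2 * j) 3 4 (M + Multiset.replicate j 4 + Multiset.replicate j 6) := by
  induction j with
  | zero => simpa using h
  | succ j ih =>
    refine (ih.move1.swap.move1).congr ?_
    intro k
    simp only [Multiset.replicate_succ, Multiset.count_add, Multiset.count_cons, Nat.reduceAdd]
    omega

/-- leftover triangles -/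
theorem Conf.o3 (j : ℕ) : ∃ p, ∀ (z : ℕ) (M : Multiset ℕ), Conf z 3 4 M →
    Conf (z + (3 * j + j % 2)) 3 4 (M + Multiset.replicate j 3 + Multiset.replicate p 5 +
      Multiset.replicate (2 * j) 6) := by
  induction j using Nat.strong_induction_on with
  | _ j ih =>
    match j, ih with
    | 0, _ => exact ⟨0, fun z M h => by simpa using h⟩
    | 1, _ =>
      refine ⟨1, fun z M h => ?_⟩
      have h1 : Conf (z + (3 * 1 + 1 % 2)) 3 4 _ := h.swap.move2.move1.swap.move1
      refine h1.congr ?_
      intro k
      simp only [Multiset.count_add, Multiset.count_cons, Multiset.replicate_one,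
        Multiset.count_singleton, Nat.reduceAdd, Nat.reduceMul, Multiset.replicate_succ,
        Multiset.replicate_zero, Multiset.count_zero]
      omega
    | j + 2, ih =>
      obtain ⟨p, hp⟩ := ih j (by omega)
      refine ⟨p, fun z M h => ?_⟩
      have h1 : Conf (z + 2 + 2 + 1 + 1) 3 4 (6 ::ₘ 6 ::ₘ 6 ::ₘ 3 ::ₘ 6 ::ₘ 3 ::ₘ M) :=
        h.swap.move2.move2.swap.move1.swap.move1
      have h2 := hp _ _ h1
      have e : z + 2 + 2 + 1 + 1 + (3 * j + j % 2) = z + (3 * (j + 2) + (j + 2) % 2) := by omega
      rw [e] at h2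
      refine h2.congr ?_
      intro k
      have e2 : 2 * (j + 2) = 2 * j + 1 + 1 + 1 + 1 := by ring
      simp only [e2, Multiset.count_add, Multiset.count_cons, Multiset.replicate_succ]
      omega

/-- one triangle and one hexagon for a single raise -/
theorem Conf.pre (ε : ℕ) (hε : ε ≤ 1) {z : ℕ} {M : Multiset ℕ} (h : Conf z 3 4 M) :
    Conf (z + 3 * ε) 3 (4 + ε) (M + Multiset.replicate ε 3 + Multiset.replicate ε 5 +
      Multiset.replicate ε 6) := by
  obtain rfl | rfl : ε = 0 ∨ ε = 1 := by omega
  · simpa using h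
  · refine (h.swap.move2.move1).congr ?_
    intro k
    simp only [Multiset.count_add, Multiset.count_cons, Multiset.replicate_one,
      Multiset.count_singleton, Nat.reduceAdd]
    omega

/-- The raising lemma. -/
theorem raise : ∀ (N : ℕ) (Ds : List ℕ) (A B x : ℕ), A + B + Ds.length ≤ N →
    (∀ D ∈ Ds, 7 ≤ D) → 4 ≤ x → (Ds = [] → x = 4) → (∀ D ∈ Ds.head?, x + 1 ≤ D) →
    2 * A + B + x ≤ (Ds.map (fun D => D - 5)).sum + 4 →
    ∃ (Δ x' p : ℕ) (Dd Ds' : List ℕ), Ds = Dd ++ Ds' ∧ (Ds' = [] → x' = 4) ∧
      (∀ D ∈ Ds'.head?, x' + 2 ≤ D) ∧ Δ ≤ 3 * A + B + Dd.length ∧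
      2 * Dd.length + 4 ≤ 2 * A + B + x ∧
      ∀ (z : ℕ) (M : Multiset ℕ), Conf z 3 x M →
        Conf (z + Δ) 3 x' (M + Multiset.replicate A 3 + Multiset.replicate B 4 +
          Multiset.replicate p 5 + (Dd : Multiset ℕ)) := by
  intro N
  induction N with
  | zero =>
    intro Ds A B x hN h7 hx hnil hhead hres
    have hDs : Ds = [] := List.length_eq_zero_iff.1 (by omega)
    subst hDs
    have hx4 := hnil rfl
    subst hx4
    have hA : A = 0 := by omega
    have hB : B = 0 := by omega
    subst hA hB
    exact ⟨0, 4, 0, [], [], rfl, fun _ => rfl, by simp, by simp, by simp,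
      fun z M h => by simpa using h⟩
  | succ N ih =>
    intro Ds A B x hN h7 hx hnil hhead hres
    match Ds, hN, h7, hnil, hhead, hres with
    | [], hN, h7, hnil, hhead, hres =>
      have hx4 := hnil rfl
      subst hx4
      simp only [List.map_nil, List.sum_nil] at hres
      have hA : A = 0 := by omega
      have hB : B = 0 := by omega
      subst hA hB
      exact ⟨0, 4, 0, [], [], rfl, fun _ => rfl, by simp, by simp, by simp,
        fun z M h => by simpa using h⟩
    | D :: Ds, hN, h7, hnil, hhead, hres =>
      have hD7 : 7 ≤ D := h7 D (by simp)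
      have h7' : ∀ D' ∈ Ds, 7 ≤ D' := fun D' h => h7 D' (List.mem_cons_of_mem _ h)
      have hxD : x + 1 ≤ D := hhead D (by simp)
      simp only [List.map_cons, List.sum_cons, List.length_cons] at hres hN
      have hhead' : ∀ D' ∈ Ds.head?, 7 ≤ D' := by
        intro D' hD'
        exact h7' D' (List.mem_of_mem_head? hD')
      rcases Nat.lt_or_ge (x + 1) D with hlt | hge
      · rcases Nat.eq_zero_or_pos B with hB | hB
        · subst hB
          rcases Nat.eq_zero_or_pos A with hA | hA
          · subst hA
            exact ⟨0, x, 0, [], D :: Ds, rfl, fun h => by simp at h,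
              fun D' hD' => by simp at hD'; omega, by simp, by simp; omega,
              fun z M h => by simpa using h⟩
          · obtain ⟨A, rfl⟩ : ∃ A', A = A' + 1 := ⟨A - 1, by omega⟩
            rcases Nat.lt_or_ge (x + 2) D with hlt2 | hge2
            · obtain ⟨Δ, x', p, Dd, Ds', e1, e2, e3, e4, e5, e6⟩ := ih (D :: Ds) A 0 (x + 2)
                (by simp; omega) h7 (by omega) (by simp) (by simp; omega) (by simp; omega)
              refine ⟨Δ + 3, x', p + 2, Dd, Ds', e1, e2, e3, by omega, by omega, ?_⟩
              intro z M h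
              have h1 := e6 _ _ h.move2.move1
              have e : z + 2 + 1 + Δ = z + (Δ + 3) := by ring
              rw [e] at h1
              refine h1.congr ?_
              intro k
              simp only [Multiset.count_add, Multiset.count_cons, Multiset.replicate_succ,
                Nat.reduceAdd]
              omega
            · have hDs : Ds ≠ [] := by
                rintro rfl
                simp at hres
                omega
              obtain ⟨Δ, x', p, Dd, Ds', e1, e2, e3, e4, e5, e6⟩ := ih Ds A 0 5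
                (by omega) h7' (by omega) (fun h => absurd h hDs)
                (by intro D' hD'; have := hhead' D' hD'; omega) (by omega)
              refine ⟨Δ + 3, x', p + 1, D :: Dd, Ds', by rw [e1]; rfl, e2, e3,
                by simp only [List.length_cons]; omega, by simp only [List.length_cons]; omega, ?_⟩
              intro z M h
              have hx2 : x + 2 = D := by omega
              have h1 := e6 _ _ h.swap.move2.move1
              have e : z + 2 + 1 + Δ = z + (Δ + 3) := by ring
              rw [e, hx2] at h1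
              refine h1.congr ?_
              intro k
              simp only [Multiset.count_add, Multiset.count_cons, Multiset.replicate_succ,
                Nat.reduceAdd, ← Multiset.cons_coe]
              omega
        · obtain ⟨B, rfl⟩ : ∃ B', B = B' + 1 := ⟨B - 1, by omega⟩
          obtain ⟨Δ, x', p, Dd, Ds', e1, e2, e3, e4, e5, e6⟩ := ih (D :: Ds) A B (x + 1)
            (by simp; omega) h7 (by omega) (by simp) (by simp; omega) (by simp; omega)
          refine ⟨Δ + 1, x', p, Dd, Ds', e1, e2, e3, by omega, by omega, ?_⟩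
          intro z M h
          have h1 := e6 _ _ h.move1
          have e : z + 1 + Δ = z + (Δ + 1) := by ring
          rw [e] at h1
          refine h1.congr ?_
          intro k
          simp only [Multiset.count_add, Multiset.count_cons, Multiset.replicate_succ,
            Nat.reduceAdd]
          omega
      · obtain ⟨Δ, x', p, Dd, Ds', e1, e2, e3, e4, e5, e6⟩ := ih Ds A B 4
          (by omega) h7' (by omega) (fun _ => rfl)
          (by intro D' hD'; have := hhead' D' hD'; omega) (by omega)
        refine ⟨Δ + 1, x', p, D :: Dd, Ds', by rw [e1]; rfl, e2, e3,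
          by simp only [List.length_cons]; omega, by simp only [List.length_cons]; omega, ?_⟩
        intro z M h
        have hx2 : x + 1 = D := by omega
        have h1 := e6 _ _ h.swap.move1
        have e : z + 1 + Δ = z + (Δ + 1) := by ring
        rw [e, hx2] at h1
        refine h1.congr ?_
        intro k
        simp only [Multiset.count_add, Multiset.count_cons, ← Multiset.cons_coe]
        omega

/-- The distribution of the triangles, quadrangles and hexagons. -/
theorem distribute (A B n R : ℕ) (h : 2 * A + B ≤ n + R) :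
    ∃ A1 A2 B1 B2 ε n0 : ℕ, ε ≤ 1 ∧ A = A1 + A2 + ε ∧ B = B1 + B2 ∧
      n = n0 + 2 * A1 + B1 + ε ∧ 2 * A2 + B2 + ε ≤ R ∧ (ε = 1 → 1 ≤ R) := by
  rcases Nat.lt_or_ge n (2 * A + B) with h1 | h1
  · rcases Nat.lt_or_ge B n with h2 | h2
    · rcases Nat.even_or_odd (n - B) with ⟨r, hr⟩ | ⟨r, hr⟩
      · exact ⟨r, A - r, B, 0, 0, 0, by omega, by omega, by omega, by omega, by omega, by omega⟩
      · rcases Nat.eq_zero_or_pos B with hB | hB
        · exact ⟨r, A - r - 1, 0, 0, 1, 0, by omega, by omega, by omega, by omega, by omega,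
            by omega⟩
        · exact ⟨r + 1, A - (r + 1), B - 1, 1, 0, 0, by omega, by omega, by omega, by omega,
            by omega, by omega⟩
    · exact ⟨0, A, n, B - n, 0, 0, by omega, by omega, by omega, by omega, by omega, by omega⟩
  · exact ⟨A, 0, B, 0, 0, n - 2 * A - B, by omega, by omega, by omega, by omega, by omega,
      by omega⟩

/-- One very large face. -/
theorem one (K A B n : ℕ) (Ds : List ℕ) (h7 : ∀ D ∈ Ds, 7 ≤ D) (hK : 4 * A + 2 * B + 6 ≤ K)
    (hres : 2 * A + B ≤ n + (Ds.map (fun D => D - 5)).sum) :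
    ∃ p, Fin' (Multiset.replicate (A + 2) 3 + Multiset.replicate (B + 2) 4 +
      Multiset.replicate p 5 + Multiset.replicate n 6 + {K} + (Ds : Multiset ℕ)) := by
  obtain ⟨A1, A2, B1, B2, ε, n0, hε, rfl, rfl, rfl, h2, h3⟩ := distribute A B n _ hres
  obtain ⟨Δ, x', p, Dd, Ds', e1, e2, e3, e4, e5, e6⟩ := raise _ Ds A2 B2 (4 + ε) le_rfl h7
    (by omega) (by
      intro h
      subst h
      simp at h3
      omega)
    (by
      intro D hD
      have := h7 D (List.mem_of_mem_head? hD)
      omega) (by omega)
  obtain ⟨p1, hp1⟩ := Conf.o3 A1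
  have hbound : 5 + 2 * B1 + (3 * A1 + A1 % 2) + 3 * ε + Δ + 1 ≤ K := by omega
  -- the state after the treatment of the leftovers
  have h0 := hp1 _ _ ((conf_tube n0).o4 B1)
  match Ds', e1, e2, e3 with
  | [], e1, e2, e3 =>
    have hx4 := e2 rfl
    obtain ⟨g, hg⟩ : ∃ g, 5 + 2 * B1 + (3 * A1 + A1 % 2) + g + 3 * ε + Δ = K :=
      ⟨K - (5 + 2 * B1 + (3 * A1 + A1 % 2) + 3 * ε + Δ), by omega⟩
    have hf := (e6 _ _ (Conf.pre ε hε (h0.grow g))).fin
    rw [hg, hx4] at hf
    rw [List.append_nil] at e1
    refine ⟨1 + p1 + g + ε + p, hf.congr ?_⟩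
    intro k
    have a1 : n0 + 2 * A1 + B1 + ε = n0 + (2 * A1) + B1 + ε := rfl
    simp only [e1, Multiset.count_add, Multiset.count_cons, Multiset.count_singleton,
      Multiset.insert_eq_cons, Multiset.replicate_add, Multiset.replicate_succ,
      Multiset.replicate_zero, Multiset.count_zero]
    omega
  | D' :: Ds'', e1, e2, e3 =>
    have hD' : x' + 2 ≤ D' := e3 D' (by simp)
    obtain ⟨g, hg⟩ : ∃ g, 5 + 2 * B1 + (3 * A1 + A1 % 2) + g + 3 * ε + Δ + 1 = K :=
      ⟨K - 1 - (5 + 2 * B1 + (3 * A1 + A1 % 2) + 3 * ε + Δ), by omega⟩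
    have hs := (e6 _ _ (Conf.pre ε hε (h0.grow g))).sw
    rw [hg] at hs
    obtain ⟨p2, h4⟩ := hs.close (k := D') (by omega)
    obtain ⟨p3, h5⟩ := h4.rest Ds'' (by
      intro k hk
      exact h7 k (by rw [e1]; simp [hk]))
    refine ⟨1 + p1 + g + ε + p + p2 + p3 + 1, h5.endStd.congr ?_⟩
    intro k
    simp only [e1, Multiset.count_add, Multiset.count_cons, Multiset.count_singleton,
      Multiset.insert_eq_cons, Multiset.replicate_add, Multiset.replicate_succ,
      Multiset.replicate_zero, Multiset.count_zero,
      ← Multiset.coe_add, ← Multiset.cons_coe]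
    omega

end Pool.Agent.Helper79.HX
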