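import Pool.Agent.Helper79.HX.Blocks

/-!
# Plugging a triangulated disc into a triangle; relabelling
-/

namespace Pool.Agent.Helper79.HX

open Finset

section plug
variable {T N : Finset (Finset ℕ)} {f W : Finset ℕ}

theorem mem_plug {t : Finset ℕ} : t ∈ T.erase f ∪ N ↔ (t ≠ f ∧ t ∈ T) ∨ t ∈ N := by
  rw [Finset.mem_union, Finset.mem_erase]

/-- A triangle with an edge and two triangles. -/
theorem inter_two {s t e : Finset ℕ} (hs : s.card = 3) (ht : t.card = 3) (hne : s ≠ t)
    (he : e.card = 2) (h1 : e ⊆ s) (h2 : e ⊆ t) : (s ∩ t).card = 2 := by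
  have h3 : e ⊆ s ∩ t := Finset.subset_inter h1 h2
  have h4 := Finset.card_le_card h3
  have h5 : (s ∩ t).card ≤ 3 := (Finset.card_le_card Finset.inter_subset_left).trans hs.le
  rcases Nat.lt_or_ge (s ∩ t).card 3 with h | h
  · omega
  · exfalso
    have e1 : s ∩ t = s := Finset.eq_of_subset_of_card_le Finset.inter_subset_left (by omega)
    have e2 : s ∩ t = t := Finset.eq_of_subset_of_card_le Finset.inter_subset_right (by omega)
    exact hne (e1.symm.trans e2)

variable (hS : IsSphere T) (hf : f ∈ T) (hW : Disjoint W (verts T))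
  (h1 : ∀ t ∈ N, t.card = 3)
  (h2 : ∀ t ∈ N, ∀ e ∈ t.powersetCard 2, ¬ e ⊆ f →
    (N.filter (fun s => e ⊆ s)).card = 2 ∧ ∃ v ∈ e, v ∈ W)
  (h3 : ∀ e ∈ f.powersetCard 2, (N.filter (fun s => e ⊆ s)).card = 1)
  (h4 : ∀ A ⊆ N, A.Nonempty → (∀ s ∈ A, ∀ t ∈ N, (s ∩ t).card = 2 → t ∈ A) → A = N)
  (h5 : verts N = f ∪ W) (h6 : 2 * W.card + 1 = N.card)
  (h7 : ∀ t ∈ N, ∃ v ∈ t, v ∈ W)

include hW h7 in
theorem plug_disj : Disjoint (T.erase f) N := by
  rw [Finset.disjoint_left]
  intro t ht htN
  obtain ⟨v, hv, hvW⟩ := h7 t htN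
  exact Finset.disjoint_left.1 hW hvW (mem_verts.2 ⟨t, Finset.mem_of_mem_erase ht, hv⟩)

include hW h7 hf in
theorem plug_count (P : Finset ℕ → Prop) [DecidablePred P] :
    ((T.erase f ∪ N).filter P).card + (if P f then 1 else 0) =
      (T.filter P).card + (N.filter P).card := by
  rw [Finset.filter_union, Finset.card_union_of_disjoint
    (Finset.disjoint_filter_filter (plug_disj hW h7))]
  have h3 : ((T.erase f).filter P).card + (if P f then 1 else 0) = (T.filter P).card := by
    have hins : T = insert f (T.erase f) := (Finset.insert_erase hf).symm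
    conv_rhs => rw [hins, Finset.filter_insert]
    split_ifs with hP
    · rw [Finset.card_insert_of_notMem (by simp)]
    · simp
  omega

include hf h5 in
theorem plug_verts : verts (T.erase f ∪ N) = verts T ∪ W := by
  ext x
  rw [Finset.mem_union, mem_verts]
  constructor
  · rintro ⟨t, ht, hx⟩
    rcases mem_plug.1 ht with ⟨-, h⟩ | h
    · exact Or.inl (mem_verts.2 ⟨t, h, hx⟩)
    · have : x ∈ verts N := mem_verts.2 ⟨t, h, hx⟩
      rw [h5, Finset.mem_union] at this
      rcases this with h | h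
      · exact Or.inl (mem_verts.2 ⟨f, hf, h⟩)
      · exact Or.inr h
  · intro h
    by_cases hx : x ∈ f ∪ W
    · rw [← h5] at hx
      obtain ⟨t, ht, hxt⟩ := mem_verts.1 hx
      exact ⟨t, mem_plug.2 (Or.inr ht), hxt⟩
    · rw [Finset.mem_union, not_or] at hx
      rcases h with h | h
      · obtain ⟨t, ht, hxt⟩ := mem_verts.1 h
        exact ⟨t, mem_plug.2 (Or.inl ⟨fun h => hx.1 (h ▸ hxt), ht⟩), hxt⟩
      · exact absurd h hx.2

include hW h7 hf in
theorem plug_deg (x : ℕ) : deg (T.erase f ∪ N) x + (if x ∈ f then 1 else 0) =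
    deg T x + deg N x :=
  plug_count hf hW h7 (fun t => x ∈ t)

include hS hf hW h1 h2 h3 h7 in
theorem plug_edge : ∀ t ∈ T.erase f ∪ N, ∀ e ⊆ t, e.card = 2 →
    ((T.erase f ∪ N).filter (fun s => e ⊆ s)).card = 2 := by
  intro t ht e het he
  have hc := plug_count hf hW h7 (fun s => e ⊆ s)
  by_cases hef : e ⊆ f
  · have e1 := hS.edge f hf e hef he
    have e2 := h3 e (Finset.mem_powersetCard.2 ⟨hef, he⟩)
    rw [if_pos hef] at hc
    omega
  · rw [if_neg hef] at hc
    rcases mem_plug.1 ht with ⟨-, h⟩ | h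
    · have e1 := hS.edge t h e het he
      have e2 : (N.filter (fun s => e ⊆ s)).card = 0 := by
        rw [Finset.card_eq_zero, Finset.filter_eq_empty_iff]
        intro s hs hes
        obtain ⟨-, v, hve, hvW⟩ := h2 s hs e (Finset.mem_powersetCard.2 ⟨hes, he⟩) hef
        exact Finset.disjoint_left.1 hW hvW (mem_verts.2 ⟨t, h, het hve⟩)
      omega
    · obtain ⟨e1, v, hve, hvW⟩ := h2 t h e (Finset.mem_powersetCard.2 ⟨het, he⟩) hef
      have e2 : (T.filter (fun s => e ⊆ s)).card = 0 := by
        rw [Finset.card_eq_zero, Finset.filter_eq_empty_iff]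
        intro s hs hes
        exact Finset.disjoint_left.1 hW hvW (mem_verts.2 ⟨s, hs, hes hve⟩)
      omega

include hS hf hW h1 h3 h4 h7 in
theorem plug_conn : ∀ A ⊆ T.erase f ∪ N, A.Nonempty →
    (∀ s ∈ A, ∀ t ∈ T.erase f ∪ N, (s ∩ t).card = 2 → t ∈ A) → A = T.erase f ∪ N := by
  intro A hA hne hcl
  -- a triangle of `N` next to a triangle of `T` adjacent to `f`
  have hnb : ∀ t ∈ T, t ≠ f → (t ∩ f).card = 2 →
      ∃ n ∈ N, (t ∩ n).card = 2 ∧ (n ∩ t).card = 2 := by
    intro t ht htf hc
    have e1 := h3 (t ∩ f) (Finset.mem_powersetCard.2 ⟨Finset.inter_subset_right, hc⟩)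
    have : (N.filter (fun s => t ∩ f ⊆ s)).Nonempty := by
      rw [← Finset.card_pos]; omega
    obtain ⟨n, hn⟩ := this
    obtain ⟨hnN, hns⟩ := Finset.mem_filter.1 hn
    have hne' : t ≠ n := by
      rintro rfl
      obtain ⟨v, hv, hvW⟩ := h7 t hnN
      exact Finset.disjoint_left.1 hW hvW (mem_verts.2 ⟨t, ht, hv⟩)
    refine ⟨n, hnN, ?_, ?_⟩
    · exact inter_two (hS.tri t ht) (h1 n hnN) hne' hc Finset.inter_subset_left hns
    · exact inter_two (h1 n hnN) (hS.tri t ht) hne'.symm hc hns Finset.inter_subset_left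
  have hNA : N ⊆ A := by
    by_cases hAN : (A ∩ N).Nonempty
    · have : A ∩ N = N := by
        apply h4 _ Finset.inter_subset_right hAN
        intro s hs t ht hst
        obtain ⟨hsA, hsN⟩ := Finset.mem_inter.1 hs
        exact Finset.mem_inter.2 ⟨hcl s hsA t (mem_plug.2 (Or.inr ht)) hst, ht⟩
      rw [← this]; exact Finset.inter_subset_left
    · exfalso
      have hAT : ∀ s ∈ A, s ≠ f ∧ s ∈ T := by
        intro s hs
        rcases mem_plug.1 (hA hs) with h | h
        · exact h
        · exact absurd ⟨s, Finset.mem_inter.2 ⟨hs, h⟩⟩ hAN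
      have : A = T := by
        apply hS.conn A (fun s hs => (hAT s hs).2) hne
        intro s hs t ht hst
        by_cases htf : t = f
        · subst htf
          obtain ⟨n, hnN, hn, -⟩ := hnb s (hAT s hs).2 (hAT s hs).1 hst
          exact absurd ⟨n, Finset.mem_inter.2
            ⟨hcl s hs n (mem_plug.2 (Or.inr hnN)) hn, hnN⟩⟩ hAN
        · exact hcl s hs t (mem_plug.2 (Or.inl ⟨htf, ht⟩)) hst
      exact (hAT f (this ▸ hf)).1 rfl
  have hA1 : T.filter (fun t => t = f ∨ t ∈ A) = T := by
    apply hS.conn _ (Finset.filter_subset _ _) ⟨f, Finset.mem_filter.2 ⟨hf, Or.inl rfl⟩⟩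
    intro s hs t ht hst
    obtain ⟨hsT, hs⟩ := Finset.mem_filter.1 hs
    refine Finset.mem_filter.2 ⟨ht, ?_⟩
    by_cases htf : t = f
    · exact Or.inl htf
    · right
      rcases hs with hs | hs
      · subst hs
        rw [Finset.inter_comm] at hst
        obtain ⟨n, hnN, -, hn⟩ := hnb t ht htf hst
        exact hcl n (hNA hnN) t (mem_plug.2 (Or.inl ⟨htf, ht⟩)) hn
      · exact hcl s hs t (mem_plug.2 (Or.inl ⟨htf, ht⟩)) hst
  apply Finset.Subset.antisymm hA
  intro t ht
  rcases mem_plug.1 ht with ⟨htf, htT⟩ | h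
  · rw [← hA1] at htT
    rcases (Finset.mem_filter.1 htT).2 with h | h
    · exact absurd h htf
    · exact h
  · exact hNA h

include hS hf hW h1 h2 h3 h4 h5 h6 h7 in
theorem plug_isSphere : IsSphere (T.erase f ∪ N) := by
  refine ⟨?_, ?_, plug_edge hS hf hW h1 h2 h3 h7, plug_conn hS hf hW h1 h3 h4 h7, ?_⟩
  · have : N.Nonempty := by rw [← Finset.card_pos]; omega
    exact this.mono Finset.subset_union_right
  · intro t ht
    rcases mem_plug.1 ht with ⟨-, h⟩ | h
    · exact hS.tri t h
    · exact h1 t h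
  · rw [plug_verts hf h5, Finset.card_union_of_disjoint hW.symm]
    have hc := plug_count hf hW h7 (fun _ => True)
    simp only [Finset.filter_true, if_true] at hc
    have := hS.euler
    omega

end plug

/-- Relabelling. -/
def relabel (g : ℕ → ℕ) (T : Finset (Finset ℕ)) : Finset (Finset ℕ) :=
  T.image (fun t => t.image g)

section relabel
variable {g : ℕ → ℕ} (hg : Function.Injective g) {T : Finset (Finset ℕ)}

include hg in
theorem image_inj : Function.Injective (fun t : Finset ℕ => t.image g) :=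
  Finset.image_injective hg

include hg in
theorem relabel_card : (relabel g T).card = T.card :=
  Finset.card_image_of_injective _ (image_inj hg)

theorem relabel_verts : verts (relabel g T) = (verts T).image g := by
  ext x
  simp only [mem_verts, relabel, Finset.mem_image]
  constructor
  · rintro ⟨_, ⟨t, ht, rfl⟩, hx⟩
    obtain ⟨y, hy, rfl⟩ := Finset.mem_image.1 hx
    exact ⟨y, ⟨t, ht, hy⟩, rfl⟩
  · rintro ⟨y, ⟨t, ht, hy⟩, rfl⟩
    exact ⟨_, ⟨t, ht, rfl⟩, Finset.mem_image_of_mem g hy⟩

include hg in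
theorem relabel_filter (P : Finset ℕ → Prop) [DecidablePred P] :
    ((relabel g T).filter P).card = (T.filter (fun t => P (t.image g))).card := by
  rw [relabel, Finset.filter_image, Finset.card_image_of_injective _ (image_inj hg)]

include hg in
theorem relabel_deg (x : ℕ) : deg (relabel g T) (g x) = deg T x := by
  rw [deg, relabel_filter hg, deg]
  congr 1
  apply Finset.filter_congr
  intro t _
  exact hg.mem_finset_image

include hg in
theorem relabel_isSphere (hS : IsSphere T) : IsSphere (relabel g T) := by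
  refine ⟨hS.nonempty.image _, ?_, ?_, ?_, ?_⟩
  · intro t ht
    obtain ⟨s, hs, rfl⟩ := Finset.mem_image.1 ht
    rw [Finset.card_image_of_injective _ hg]; exact hS.tri s hs
  · intro t ht e het he
    obtain ⟨s, hs, rfl⟩ := Finset.mem_image.1 ht
    obtain ⟨e', he', rfl⟩ := Finset.subset_image_iff.1 het
    rw [Finset.card_image_of_injective _ hg] at he
    rw [relabel_filter hg, ← hS.edge s hs e' he' he]
    congr 1
    apply Finset.filter_congr
    intro t _
    exact Finset.image_subset_image_iff hg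
  · intro A hA hne hcl
    have key : T.filter (fun t => t.image g ∈ A) = T := by
      apply hS.conn _ (Finset.filter_subset _ _)
      · obtain ⟨t, ht⟩ := hne
        obtain ⟨s, hs, rfl⟩ := Finset.mem_image.1 (hA ht)
        exact ⟨s, Finset.mem_filter.2 ⟨hs, ht⟩⟩
      · intro s hs t ht hst
        obtain ⟨hsT, hsA⟩ := Finset.mem_filter.1 hs
        refine Finset.mem_filter.2 ⟨ht, hcl _ hsA _ (Finset.mem_image_of_mem _ ht) ?_⟩
        rw [← Finset.image_inter _ _ hg, Finset.card_image_of_injective _ hg]; exact hst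
    apply Finset.Subset.antisymm hA
    intro t ht
    obtain ⟨s, hs, rfl⟩ := Finset.mem_image.1 ht
    rw [← key] at hs
    exact (Finset.mem_filter.1 hs).2
  · rw [relabel_verts, Finset.card_image_of_injective _ hg, relabel_card hg]
    exact hS.euler

end relabel

end Pool.Agent.Helper79.HX
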