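import Pool.Agent.Helper79.HX.Zero

/-!
# Heptagons and octagons
-/

namespace Pool.Agent.Helper79.HX

open Finset

/-- as `Win`, from a hub of degree 5 which is not assigned yet -/
def Win5 (C : Multiset ℕ) (A B : ℕ) : Prop :=
  ∀ (M : Multiset ℕ), Conf 5 3 4 M → ∃ p, Fin' (M +
    C.map (fun c => c + 4) + Multiset.replicate (A + 1) 3 + Multiset.replicate (B + 1) 4 +
    Multiset.replicate p 5)

theorem win_of_win5 {H : ℕ} {C : Multiset ℕ} {A B : ℕ} (h : Win5 C A B) (hH : 1 ≤ H) :
    Win H C A B := by
  intro z M hz
  obtain ⟨p, hp⟩ := h _ (hz.grow (H - 1)).sw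
  have e : z + (H - 1) + 1 = z + H := by omega
  rw [e] at hp
  refine ⟨H - 1 + p, hp.congr ?_⟩
  intro k
  simp only [Multiset.count_add, Multiset.count_cons, Multiset.count_singleton,
    Multiset.replicate_add]
  omega

theorem win5_of_win {c : ℕ} {C : Multiset ℕ} {A B : ℕ} (hc : 1 ≤ c) (h : Win (c - 1) C A B) :
    Win5 (c ::ₘ C) A B := by
  intro M hM
  obtain ⟨p, hp⟩ := h _ _ hM
  have e : 5 + (c - 1) = c + 4 := by omega
  rw [e] at hp
  refine ⟨p, hp.congr ?_⟩
  intro k
  simp only [Multiset.count_add, Multiset.count_cons, Multiset.count_singleton,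
    Multiset.map_cons]
  omega

theorem win5_nil : Win5 0 0 0 := by
  intro M hM
  refine ⟨1, hM.endStd.congr ?_⟩
  intro k
  simp only [Multiset.count_add, Multiset.count_cons, Multiset.count_singleton,
    Multiset.insert_eq_cons, Multiset.map_zero, Multiset.count_zero, Multiset.replicate_one,
    Nat.zero_add]
  omega

/-- a block -/
theorem win5_block {C D : Multiset ℕ} {A B A' B' : ℕ} (h : Win5 C A B)
    (hb : ∀ M, Conf 5 3 4 M → ∃ p, Conf 5 3 4 (M + Multiset.replicate p 5 +
      D.map (fun c => c + 4) + Multiset.replicate A' 3 + Multiset.replicate B' 4)) :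
    Win5 (D + C) (A + A') (B + B') := by
  intro M hM
  obtain ⟨p, hp⟩ := hb M hM
  obtain ⟨p', hp'⟩ := h _ hp
  refine ⟨p + p', hp'.congr ?_⟩
  intro k
  simp only [Multiset.count_add, Multiset.map_add, Multiset.replicate_add]
  omega

theorem win5_close {c : ℕ} {C : Multiset ℕ} {A B : ℕ} (hc : 3 ≤ c) (h : Win5 C A B) :
    Win5 (c ::ₘ C) A B := by
  have h1 := win5_block (D := {c}) (A' := 0) (B' := 0) h (by
    intro M hM
    obtain ⟨p, hp⟩ := hM.close (k := c + 4) (by omega)
    refine ⟨p, hp.congr ?_⟩
    intro k
    simp)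
  exact h1

theorem win5_quad {c c' : ℕ} {C : Multiset ℕ} {A B : ℕ} (hc : 3 ≤ c) (hc' : 3 ≤ c')
    (h : Win5 C A B) : Win5 (c ::ₘ c' ::ₘ C) A (B + 1) := by
  have h1 := win5_block (D := {c, c'}) (A' := 0) (B' := 1) h (by
    intro M hM
    obtain ⟨p, hp⟩ := hM.quad (k := c + 4) (l := c' + 4) (by omega) (by omega)
    refine ⟨p, hp.congr ?_⟩
    intro k
    simp only [Multiset.count_add, Multiset.count_cons, Multiset.count_singleton,
      Multiset.insert_eq_cons, Multiset.map_cons, Multiset.map_singleton,
      Multiset.replicate_one, Multiset.replicate_zero, Multiset.count_zero]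
    omega)
  rw [Multiset.insert_eq_cons, Multiset.cons_add, Multiset.singleton_add] at h1
  exact h1

theorem win5_tri {c c' : ℕ} {C : Multiset ℕ} {A B : ℕ} (hc : 3 ≤ c) (hc' : 3 ≤ c')
    (h : Win5 C A B) : Win5 (4 ::ₘ c ::ₘ c' ::ₘ C) (A + 1) B := by
  have h1 := win5_block (D := {4, c, c'}) (A' := 1) (B' := 0) h (by
    intro M hM
    obtain ⟨p, hp⟩ := hM.tri2 (k := c + 4) (l := c' + 4) (by omega) (by omega)
    refine ⟨p, hp.congr ?_⟩
    intro k
    simp only [Multiset.count_add, Multiset.count_cons, Multiset.count_singleton,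
      Multiset.insert_eq_cons, Multiset.map_cons, Multiset.map_singleton,
      Multiset.replicate_one, Multiset.replicate_zero, Multiset.count_zero, Nat.reduceAdd]
    omega)
  rw [Multiset.insert_eq_cons, Multiset.insert_eq_cons, Multiset.cons_add, Multiset.cons_add,
    Multiset.singleton_add] at h1
  exact h1

theorem win5_tri77 {C : Multiset ℕ} {A B : ℕ} (h : Win5 C A B) :
    Win5 (Multiset.replicate 6 3 + C) (A + 2) B := by
  have h1 := win5_block (D := Multiset.replicate 6 3) (A' := 2) (B' := 0) h (by
    intro M hM
    refine ⟨0, hM.tri77.congr ?_⟩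
    intro k
    rw [Multiset.map_replicate]
    simp only [Multiset.count_add, Multiset.count_cons, Multiset.count_singleton,
      Multiset.insert_eq_cons, Multiset.replicate_succ,
      Multiset.replicate_zero, Multiset.count_zero, Nat.reduceAdd]
    omega)
  exact h1

theorem win5_end7 : Win5 (Multiset.replicate 3 3) 1 0 := by
  intro M hM
  refine ⟨1, hM.end7.congr ?_⟩
  intro k
  rw [Multiset.map_replicate]
  simp only [Multiset.count_add, Multiset.count_cons, Multiset.count_singleton,
    Multiset.insert_eq_cons, Multiset.replicate_succ,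
    Multiset.replicate_zero, Multiset.count_zero, Nat.reduceAdd]
  omega

theorem seven : ∀ (n A B : ℕ), 3 * A + 2 * B ≤ n → Win5 (Multiset.replicate n 3) A B := by
  intro n
  induction n using Nat.strong_induction_on with
  | _ n ih =>
    intro A B h
    match n, ih, h with
    | 0, _, h =>
      obtain rfl : A = 0 := by omega
      obtain rfl : B = 0 := by omega
      exact win5_nil
    | n + 1, ih, h =>
      rcases Nat.eq_zero_or_pos B with hB | hB
      · subst hB
        rcases Nat.lt_or_ge (3 * A) (n + 1) with h1 | h1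
        · rw [Multiset.replicate_succ]
          exact win5_close le_rfl (ih n (by omega) A 0 (by omega))
        · rcases Nat.lt_or_ge A 2 with h2 | h2
          · have hA : A = 1 := by omega
            subst hA
            obtain rfl : n = 2 := by omega
            exact win5_end7
          · obtain ⟨A, rfl⟩ : ∃ A', A = A' + 2 := ⟨A - 2, by omega⟩
            have e : n + 1 = 6 + (n - 5) := by omega
            rw [e, Multiset.replicate_add]
            exact win5_tri77 (ih (n - 5) (by omega) A 0 (by omega))
      · obtain ⟨B, rfl⟩ : ∃ B', B = B' + 1 := ⟨B - 1, by omega⟩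
        obtain ⟨m, rfl⟩ : ∃ m, n = m + 1 := ⟨n - 1, by omega⟩
        rw [Multiset.replicate_succ, Multiset.replicate_succ]
        exact win5_quad le_rfl le_rfl (ih m (by omega) A B (by omega))

theorem win5_zero {C : Multiset ℕ} (h : ∀ c ∈ C, 3 ≤ c) : Win5 C 0 0 := by
  induction C using Multiset.induction_on with
  | empty => exact win5_nil
  | cons c C ih =>
    exact win5_close (h c (by simp)) (ih (fun c' h' => h c' (Multiset.mem_cons_of_mem h')))

theorem sum_le8 {C : Multiset ℕ} (h : ∀ c ∈ C, c = 3 ∨ c = 4) :
    C.sum ≤ 4 * Multiset.card C ∧ 3 * Multiset.card C ≤ C.sum := by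
  induction C using Multiset.induction_on with
  | empty => simp
  | cons c C ih =>
    have h1 := h c (by simp)
    have h2 := ih (fun c' h' => h c' (Multiset.mem_cons_of_mem h'))
    rw [Multiset.card_cons, Multiset.sum_cons]; omega

theorem small : ∀ (A B : ℕ) (C : Multiset ℕ), (∀ c ∈ C, c = 3 ∨ c = 4) →
    6 * A + 2 * Multiset.card C ≤ C.sum →
    (B ≠ 0 → 6 * A + 2 * B + 3 + 2 * Multiset.card C ≤ C.sum) → Win5 C A B := by
  intro A
  induction A with
  | zero =>
    intro B C h hX hB
    rcases Nat.eq_zero_or_pos B with h0 | h0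
    · subst h0
      exact win5_zero (fun c hc => by have := h c hc; omega)
    · have hX' := hB (by omega)
      obtain ⟨c, hc⟩ : ∃ c, c ∈ C := by
        apply Multiset.exists_mem_of_ne_zero
        rintro rfl
        simp at hX'
      obtain ⟨C', rfl⟩ := Multiset.exists_cons_of_mem hc
      have hc34 := h c (by simp)
      simp only [Multiset.card_cons, Multiset.sum_cons] at hX'
      refine win5_of_win (by omega) (zero _ _ B C' rfl ?_ (by omega) (by omega) ?_ ?_)
      · intro c' hc'
        have := h c' (by simp [hc'])
        omega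
      · intro c' hc'
        have := h c' (by simp [hc'])
        omega
      · intro _
        omega
  | succ A ih =>
    intro B C h hX hB
    by_cases h4 : 4 ∈ C
    · obtain ⟨C1, rfl⟩ := Multiset.exists_cons_of_mem h4
      have hle := sum_le8 h
      simp only [Multiset.card_cons, Multiset.sum_cons] at hX hB hle
      obtain ⟨c, c', C', rfl, -, -⟩ := decomp C1 (by omega)
      have hc := h c (by simp)
      have hc' := h c' (by simp)
      simp only [Multiset.card_cons, Multiset.sum_cons] at hX hB
      exact win5_tri (by omega) (by omega) (ih B C' (fun x hx => h x (by simp [hx]))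
        (by omega) (fun h0 => by have := hB h0; omega))
    · have h3 : C = Multiset.replicate (Multiset.card C) 3 := by
        rw [Multiset.eq_replicate]
        refine ⟨rfl, fun c hc => ?_⟩
        rcases h c hc with h | h
        · exact h
        · exact absurd (h ▸ hc) h4
      have hsum : C.sum = 3 * Multiset.card C := by
        conv_lhs => rw [h3]
        rw [Multiset.sum_replicate, smul_eq_mul, mul_comm]
      rw [h3]
      apply seven
      rcases Nat.eq_zero_or_pos B with h0 | h0
      · omega
      · have := hB (by omega)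
        omega

end Pool.Agent.Helper79.HX
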