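import Mathlib

/-!
# Triangulated spheres as finite sets of triangles, and stacking
-/

namespace Pool.Agent.Helper79.HX

open Finset

/-- The vertices of a set of triangles. -/
def verts (T : Finset (Finset ℕ)) : Finset ℕ := T.biUnion id

/-- The degree of a vertex: the number of triangles containing it. -/
def deg (T : Finset (Finset ℕ)) (v : ℕ) : ℕ := (T.filter (fun t => v ∈ t)).card

/-- A triangulated sphere, given by its set of triangles. -/
structure IsSphere (T : Finset (Finset ℕ)) : Prop where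
  nonempty : T.Nonempty
  tri : ∀ t ∈ T, t.card = 3
  edge : ∀ t ∈ T, ∀ e ⊆ t, e.card = 2 → (T.filter (fun s => e ⊆ s)).card = 2
  conn : ∀ A ⊆ T, A.Nonempty → (∀ s ∈ A, ∀ t ∈ T, (s ∩ t).card = 2 → t ∈ A) → A = T
  euler : 2 * (verts T).card = T.card + 4

theorem mem_verts {T : Finset (Finset ℕ)} {v : ℕ} : v ∈ verts T ↔ ∃ t ∈ T, v ∈ t := by
  simp [verts]

/-- Stacking a new vertex `w` on the triangle `{a, b, c}`. -/
def stack (T : Finset (Finset ℕ)) (a b c w : ℕ) : Finset (Finset ℕ) :=
  (T.erase {a, b, c}) ∪ {{a, b, w}, {a, c, w}, {b, c, w}}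

section
variable {T : Finset (Finset ℕ)} {a b c w : ℕ}

theorem mem_stack {t : Finset ℕ} : t ∈ stack T a b c w ↔
    (t ≠ {a, b, c} ∧ t ∈ T) ∨ t = {a, b, w} ∨ t = {a, c, w} ∨ t = {b, c, w} := by
  simp only [stack, Finset.mem_union, Finset.mem_erase, Finset.mem_insert, Finset.mem_singleton]

variable (hab : a ≠ b) (hac : a ≠ c) (hbc : b ≠ c) (hT : {a, b, c} ∈ T) (hw : w ∉ verts T)

include hT hw in
theorem w_ne : w ≠ a ∧ w ≠ b ∧ w ≠ c := by
  refine ⟨?_, ?_, ?_⟩ <;> rintro rfl <;> exact hw (mem_verts.2 ⟨_, hT, by simp⟩)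

include hw in
theorem not_mem_of_mem {t : Finset ℕ} (ht : t ∈ T) : w ∉ t := fun h => hw (mem_verts.2 ⟨t, ht, h⟩)

include hw in
theorem new_not_mem : ({a, b, w} : Finset ℕ) ∉ T ∧ ({a, c, w} : Finset ℕ) ∉ T ∧
    ({b, c, w} : Finset ℕ) ∉ T := by
  refine ⟨?_, ?_, ?_⟩ <;> intro h <;> exact not_mem_of_mem hw h (by simp)

include hab hac hbc hT hw in
theorem new_distinct : ({a, b, w} : Finset ℕ) ≠ {a, c, w} ∧ ({a, b, w} : Finset ℕ) ≠ {b, c, w} ∧
    ({a, c, w} : Finset ℕ) ≠ {b, c, w} := by
  obtain ⟨ha, hb, hc⟩ := w_ne hT hw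
  refine ⟨?_, ?_, ?_⟩ <;> intro h
  · have : b ∈ ({a, c, w} : Finset ℕ) := h ▸ (by simp)
    simp at this; rcases this with h | h | h
    · exact hab h.symm
    · exact hbc h
    · exact hb h.symm
  · have : a ∈ ({b, c, w} : Finset ℕ) := h ▸ (by simp)
    simp at this; rcases this with h | h | h
    · exact hab h
    · exact hac h
    · exact ha h.symm
  · have : a ∈ ({b, c, w} : Finset ℕ) := h ▸ (by simp)
    simp at this; rcases this with h | h | h
    · exact hab h
    · exact hac h
    · exact ha h.symm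

include hab hac hbc hT hw in
/-- Counting in the stacked sphere. -/
theorem card_filter_stack (P : Finset ℕ → Prop) [DecidablePred P] :
    ((stack T a b c w).filter P).card + (if P {a, b, c} then 1 else 0) =
      (T.filter P).card + (if P {a, b, w} then 1 else 0) + (if P {a, c, w} then 1 else 0)
        + (if P {b, c, w} then 1 else 0) := by
  obtain ⟨n1, n2, n3⟩ := new_not_mem (a := a) (b := b) (c := c) hw
  obtain ⟨d1, d2, d3⟩ := new_distinct hab hac hbc hT hw
  have hdisj : Disjoint (T.erase {a, b, c}) ({{a, b, w}, {a, c, w}, {b, c, w}} : Finset (Finset ℕ)) := by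
    rw [Finset.disjoint_left]
    intro t ht ht'
    have htT : t ∈ T := Finset.mem_of_mem_erase ht
    simp only [Finset.mem_insert, Finset.mem_singleton] at ht'
    rcases ht' with h | h | h
    · exact n1 (h ▸ htT)
    · exact n2 (h ▸ htT)
    · exact n3 (h ▸ htT)
  have h1 : ((stack T a b c w).filter P).card =
      ((T.erase {a, b, c}).filter P).card +
        (({{a, b, w}, {a, c, w}, {b, c, w}} : Finset (Finset ℕ)).filter P).card := by
    rw [stack, Finset.filter_union, Finset.card_union_of_disjoint]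
    exact Finset.disjoint_filter_filter hdisj
  have h2 : (({{a, b, w}, {a, c, w}, {b, c, w}} : Finset (Finset ℕ)).filter P).card =
      (if P {a, b, w} then 1 else 0) + (if P {a, c, w} then 1 else 0)
        + (if P {b, c, w} then 1 else 0) := by
    rw [Finset.card_filter, Finset.sum_insert (by simp [d1, d2]), Finset.sum_insert (by simp [d3]),
      Finset.sum_singleton, add_assoc]
  have h3 : ((T.erase {a, b, c}).filter P).card + (if P {a, b, c} then 1 else 0) =
      (T.filter P).card := by
    have hins : T = insert {a, b, c} (T.erase {a, b, c}) := (Finset.insert_erase hT).symm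
    conv_rhs => rw [hins, Finset.filter_insert]
    split_ifs with hP
    · rw [Finset.card_insert_of_notMem (by simp)]
    · simp
  omega

include hab hac hbc hT hw in
theorem card_stack : (stack T a b c w).card = T.card + 2 := by
  have h := card_filter_stack hab hac hbc hT hw (fun _ => True)
  simp only [Finset.filter_true, if_true] at h
  omega

include hT in
theorem verts_stack : verts (stack T a b c w) = insert w (verts T) := by
  ext x
  simp only [mem_verts, Finset.mem_insert, mem_stack]
  constructor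
  · rintro ⟨t, ht, hx⟩
    rcases ht with ⟨-, ht⟩ | rfl | rfl | rfl
    · exact Or.inr ⟨t, ht, hx⟩
    all_goals
      simp only [Finset.mem_insert, Finset.mem_singleton] at hx
      rcases hx with rfl | rfl | rfl
      · exact Or.inr ⟨_, hT, by simp⟩
      · exact Or.inr ⟨_, hT, by simp⟩
      · exact Or.inl rfl
  · rintro (rfl | ⟨t, ht, hx⟩)
    · exact ⟨{a, b, x}, by simp, by simp⟩
    · by_cases hf : t = {a, b, c}
      · subst hf
        simp only [Finset.mem_insert, Finset.mem_singleton] at hx
        rcases hx with rfl | rfl | rfl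
        · exact ⟨{x, b, w}, by simp, by simp⟩
        · exact ⟨{a, x, w}, by simp, by simp⟩
        · exact ⟨{a, x, w}, by simp, by simp⟩
      · exact ⟨t, Or.inl ⟨hf, ht⟩, hx⟩

include hab hac hbc hT hw in
theorem deg_stack (x : ℕ) : deg (stack T a b c w) x =
    if x = w then 3 else if x = a ∨ x = b ∨ x = c then deg T x + 1 else deg T x := by
  have h := card_filter_stack hab hac hbc hT hw (fun t => x ∈ t)
  obtain ⟨ha, hb, hc⟩ := w_ne hT hw
  unfold deg
  by_cases hxw : x = w
  · subst hxw
    have h0 : (T.filter (fun t => x ∈ t)).card = 0 := by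
      rw [Finset.card_eq_zero, Finset.filter_eq_empty_iff]
      intro t ht; exact not_mem_of_mem hw ht
    simp [ha, hb, hc] at h ⊢
    omega
  · rw [if_neg hxw]
    by_cases hxa : x = a
    · subst hxa
      simp [hab, hac, ha.symm] at h ⊢
      omega
    · by_cases hxb : x = b
      · subst hxb
        simp [hab.symm, hbc, hb.symm] at h ⊢
        omega
      · by_cases hxc : x = c
        · subst hxc
          simp [hac.symm, hbc.symm, hc.symm] at h ⊢
          omega
        · simp [hxa, hxb, hxc, hxw] at h ⊢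
          omega

/-- A 2-element intersection with a triangle. -/
theorem inter_card_two (hab : a ≠ b) (hac : a ≠ c) (hbc : b ≠ c) {s : Finset ℕ}
    (h : (s ∩ {a, b, c}).card = 2) :
    (a ∈ s ∧ b ∈ s ∧ c ∉ s) ∨ (a ∈ s ∧ c ∈ s ∧ b ∉ s) ∨ (b ∈ s ∧ c ∈ s ∧ a ∉ s) := by
  rw [Finset.inter_comm] at h
  by_cases ha : a ∈ s <;> by_cases hb : b ∈ s <;> by_cases hc : c ∈ s
  all_goals
    simp only [Finset.insert_inter_of_mem, Finset.insert_inter_of_notMem,
      Finset.singleton_inter_of_mem, Finset.singleton_inter_of_notMem, ha, hb, hc,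
      not_false_eq_true] at h
    simp [ha, hb, hc, hab, hac, hbc] at h ⊢

theorem inter_card_two' (hab : a ≠ b) {s : Finset ℕ} (ha : a ∈ s)
    (hb : b ∈ s) (hw : w ∉ s) : (({a, b, w} : Finset ℕ) ∩ s).card = 2 := by
  rw [Finset.insert_inter_of_mem ha, Finset.insert_inter_of_mem hb,
    Finset.singleton_inter_of_notMem hw]
  simp [hab]

theorem inter_card_two'' (hab : a ≠ b) {s : Finset ℕ} (ha : a ∈ s)
    (hb : b ∈ s) (hw : w ∉ s) : (s ∩ ({a, b, w} : Finset ℕ)).card = 2 := by
  rw [Finset.inter_comm]; exact inter_card_two' hab ha hb hw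

include hab hac hbc hT hw in
theorem stack_edge (hS : IsSphere T) : ∀ t ∈ stack T a b c w, ∀ e ⊆ t, e.card = 2 →
    ((stack T a b c w).filter (fun s => e ⊆ s)).card = 2 := by
  intro t ht e het he
  have h := card_filter_stack hab hac hbc hT hw (fun s => e ⊆ s)
  obtain ⟨ha, hb, hc⟩ := w_ne hT hw
  by_cases hwe : w ∈ e
  · -- `e = {w, x}`
    obtain ⟨x, hx⟩ : ∃ x, e = {w, x} ∧ x ≠ w := by
      have h1 : (e.erase w).card = 1 := by rw [Finset.card_erase_of_mem hwe, he]
      obtain ⟨x, hx⟩ := Finset.card_eq_one.1 h1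
      refine ⟨x, ?_, ?_⟩
      · rw [← Finset.insert_erase hwe, hx]
      · have : x ∈ e.erase w := by rw [hx]; simp
        exact (Finset.mem_erase.1 this).1
    obtain ⟨rfl, hxw⟩ := hx
    have h0 : (T.filter (fun s => ({w, x} : Finset ℕ) ⊆ s)).card = 0 := by
      rw [Finset.card_eq_zero, Finset.filter_eq_empty_iff]
      intro t ht hs; exact not_mem_of_mem hw ht (hs (by simp))
    have hwt : w ∈ t := het (by simp)
    have hxt : x ∈ t := het (by simp)
    have hx3 : x = a ∨ x = b ∨ x = c := by
      rcases mem_stack.1 ht with ⟨-, h1⟩ | rfl | rfl | rfl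
      · exact absurd hwt (not_mem_of_mem hw h1)
      all_goals
        simp only [Finset.mem_insert, Finset.mem_singleton, hxw, or_false] at hxt
        tauto
    simp only [h0] at h
    generalize ((stack T a b c w).filter (fun s => ({w, x} : Finset ℕ) ⊆ s)).card = N at h ⊢
    simp only [Finset.insert_subset_iff, Finset.singleton_subset_iff, Finset.mem_insert,
      Finset.mem_singleton] at h
    rcases hx3 with rfl | rfl | rfl
    · simp [ha, hb, hc, hab, hac, hxw] at h ⊢; omega
    · simp [ha, hb, hc, hab.symm, hbc, hxw] at h ⊢; omega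
    · simp [ha, hb, hc, hac.symm, hbc.symm, hxw] at h ⊢; omega
  · -- `w ∉ e`
    have key : ∀ x y : ℕ, x ≠ y → (e ⊆ {x, y, w} ↔ e = {x, y}) := by
      intro x y hxy
      constructor
      · intro hs
        have h1 : e ⊆ {x, y} := by
          intro z hz
          have := hs hz
          simp only [Finset.mem_insert, Finset.mem_singleton] at this ⊢
          rcases this with h | h | h
          · exact Or.inl h
          · exact Or.inr h
          · exact absurd (h ▸ hz) hwe
        exact Finset.eq_of_subset_of_card_le h1 (by rw [he, Finset.card_pair hxy])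
      · rintro rfl
        intro z hz
        simp only [Finset.mem_insert, Finset.mem_singleton] at hz ⊢
        tauto
    have key2 : e ⊆ {a, b, c} ↔ e = {a, b} ∨ e = {a, c} ∨ e = {b, c} := by
      constructor
      · intro hs
        have hi : (e ∩ {a, b, c}).card = 2 := by
          rw [Finset.inter_eq_left.2 hs, he]
        have hsub : ∀ z ∈ e, z = a ∨ z = b ∨ z = c := by
          intro z hz; have := hs hz; simpa using this
        rcases inter_card_two hab hac hbc hi with ⟨h1, h2, h3⟩ | ⟨h1, h2, h3⟩ | ⟨h1, h2, h3⟩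
        · left; symm
          exact Finset.eq_of_subset_of_card_le (by
            intro z hz; simp at hz; rcases hz with rfl | rfl <;> assumption)
            (by rw [he, Finset.card_pair hab])
        · right; left; symm
          exact Finset.eq_of_subset_of_card_le (by
            intro z hz; simp at hz; rcases hz with rfl | rfl <;> assumption)
            (by rw [he, Finset.card_pair hac])
        · right; right; symm
          exact Finset.eq_of_subset_of_card_le (by
            intro z hz; simp at hz; rcases hz with rfl | rfl <;> assumption)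
            (by rw [he, Finset.card_pair hbc])
      · rintro (rfl | rfl | rfl) <;> intro z hz <;>
          simp only [Finset.mem_insert, Finset.mem_singleton] at hz ⊢ <;> tauto
    have hpair : ({a, b} : Finset ℕ) ≠ {a, c} ∧ ({a, b} : Finset ℕ) ≠ {b, c} ∧
        ({a, c} : Finset ℕ) ≠ {b, c} := by
      refine ⟨?_, ?_, ?_⟩ <;> intro h
      · have : b ∈ ({a, c} : Finset ℕ) := h ▸ (by simp)
        simp at this; rcases this with h | h
        · exact hab h.symm
        · exact hbc h
      · have : a ∈ ({b, c} : Finset ℕ) := h ▸ (by simp)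
        simp at this; rcases this with h | h
        · exact hab h
        · exact hac h
      · have : a ∈ ({b, c} : Finset ℕ) := h ▸ (by simp)
        simp at this; rcases this with h | h
        · exact hab h
        · exact hac h
    obtain ⟨p1, p2, p3⟩ := hpair
    by_cases hf : e ⊆ {a, b, c}
    · have hcount : (T.filter (fun s => e ⊆ s)).card = 2 := hS.edge _ hT e hf he
      simp only [key a b hab, key a c hac, key b c hbc, if_pos hf, hcount] at h
      rcases key2.1 hf with rfl | rfl | rfl
      · simp [p1, p2] at h; omega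
      · simp [p1.symm, p3] at h; omega
      · simp [p2.symm, p3.symm] at h; omega
    · have h1 : ¬ e ⊆ {a, b, w} := fun h' => hf (key2.2 (Or.inl ((key a b hab).1 h')))
      have h2 : ¬ e ⊆ {a, c, w} := fun h' => hf (key2.2 (Or.inr (Or.inl ((key a c hac).1 h'))))
      have h3 : ¬ e ⊆ {b, c, w} := fun h' => hf (key2.2 (Or.inr (Or.inr ((key b c hbc).1 h'))))
      have htT : t ∈ T := by
        rcases mem_stack.1 ht with ⟨-, h'⟩ | rfl | rfl | rfl
        · exact h'
        · exact absurd het h1
        · exact absurd het h2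
        · exact absurd het h3
      have hcount : (T.filter (fun s => e ⊆ s)).card = 2 := hS.edge _ htT e het he
      simp only [hf, h1, h2, h3, if_false, hcount] at h
      omega

include hab hac hbc hT hw in
theorem stack_conn (hS : IsSphere T) : ∀ A ⊆ stack T a b c w, A.Nonempty →
    (∀ s ∈ A, ∀ t ∈ stack T a b c w, (s ∩ t).card = 2 → t ∈ A) → A = stack T a b c w := by
  intro A hA hne hcl
  obtain ⟨ha, hb, hc⟩ := w_ne hT hw
  have m1 : ({a, b, w} : Finset ℕ) ∈ stack T a b c w := mem_stack.2 (by simp)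
  have m2 : ({a, c, w} : Finset ℕ) ∈ stack T a b c w := mem_stack.2 (by simp)
  have m3 : ({b, c, w} : Finset ℕ) ∈ stack T a b c w := mem_stack.2 (by simp)
  have c12 : (({a, b, w} : Finset ℕ) ∩ {a, c, w}).card = 2 := by
    have : (({a, w, b} : Finset ℕ) ∩ {a, c, w}).card = 2 :=
      inter_card_two' ha.symm (by simp) (by simp) (by simp [hab.symm, hbc, hb.symm])
    rwa [show ({a, w, b} : Finset ℕ) = {a, b, w} by rw [Finset.pair_comm]] at this
  have c13 : (({a, b, w} : Finset ℕ) ∩ {b, c, w}).card = 2 := by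
    have : (({b, w, a} : Finset ℕ) ∩ {b, c, w}).card = 2 :=
      inter_card_two' hb.symm (by simp) (by simp) (by simp [hab, hac, ha.symm])
    rwa [show ({b, w, a} : Finset ℕ) = {a, b, w} by
      rw [Finset.pair_comm, Finset.insert_comm]] at this
  have c23 : (({a, c, w} : Finset ℕ) ∩ {b, c, w}).card = 2 := by
    have : (({c, w, a} : Finset ℕ) ∩ {b, c, w}).card = 2 :=
      inter_card_two' hc.symm (by simp) (by simp) (by simp [hab, hac, ha.symm])
    rwa [show ({c, w, a} : Finset ℕ) = {a, c, w} by
      rw [Finset.pair_comm, Finset.insert_comm]] at this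
  -- all new triangles belong to `A` as soon as one of them does
  have hall : ({a, b, w} ∈ A ∨ {a, c, w} ∈ A ∨ {b, c, w} ∈ A) →
      ({a, b, w} ∈ A ∧ {a, c, w} ∈ A ∧ {b, c, w} ∈ A) := by
    rintro (h | h | h)
    · exact ⟨h, hcl _ h _ m2 c12, hcl _ h _ m3 c13⟩
    · exact ⟨hcl _ h _ m1 (by rwa [Finset.inter_comm]), h, hcl _ h _ m3 c23⟩
    · exact ⟨hcl _ h _ m1 (by rwa [Finset.inter_comm]), hcl _ h _ m2 (by rwa [Finset.inter_comm]), h⟩
  classical
  set f : Finset ℕ := {a, b, c} with hf
  let A1 : Finset (Finset ℕ) :=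
    T.filter (fun t => (t ≠ f ∧ t ∈ A) ∨ (t = f ∧ {a, b, w} ∈ A))
  have hA1 : ∀ t, t ∈ A1 ↔ t ∈ T ∧ ((t ≠ f ∧ t ∈ A) ∨ (t = f ∧ {a, b, w} ∈ A)) := by
    intro t; simp [A1]
  have hA1T : A1 = T := by
    apply hS.conn A1 (Finset.filter_subset _ _)
    · obtain ⟨t, ht⟩ := hne
      rcases mem_stack.1 (hA ht) with ⟨h1, h2⟩ | rfl | rfl | rfl
      · exact ⟨t, (hA1 t).2 ⟨h2, Or.inl ⟨h1, ht⟩⟩⟩
      · exact ⟨f, (hA1 f).2 ⟨hT, Or.inr ⟨rfl, ht⟩⟩⟩
      · exact ⟨f, (hA1 f).2 ⟨hT, Or.inr ⟨rfl, (hall (Or.inr (Or.inl ht))).1⟩⟩⟩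
      · exact ⟨f, (hA1 f).2 ⟨hT, Or.inr ⟨rfl, (hall (Or.inr (Or.inr ht))).1⟩⟩⟩
    · intro s hs t ht hst
      rw [hA1] at hs ⊢
      refine ⟨ht, ?_⟩
      obtain ⟨hsT, hs⟩ := hs
      have hws : w ∉ s := not_mem_of_mem hw hsT
      have hwt : w ∉ t := not_mem_of_mem hw ht
      rcases hs with ⟨hsf, hsA⟩ | ⟨hsf, hnew⟩
      · by_cases htf : t = f
        · right
          refine ⟨htf, ?_⟩
          rw [htf] at hst
          rcases inter_card_two hab hac hbc hst with ⟨h1, h2, -⟩ | ⟨h1, h2, -⟩ | ⟨h1, h2, -⟩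
          · exact hcl s hsA _ m1 (inter_card_two'' hab h1 h2 hws)
          · exact (hall (Or.inr (Or.inl (hcl s hsA _ m2 (inter_card_two'' hac h1 h2 hws))))).1
          · exact (hall (Or.inr (Or.inr (hcl s hsA _ m3 (inter_card_two'' hbc h1 h2 hws))))).1
        · left
          exact ⟨htf, hcl s hsA t (mem_stack.2 (Or.inl ⟨htf, ht⟩)) hst⟩
      · have h3 := hall (Or.inl hnew)
        by_cases htf : t = f
        · exact Or.inr ⟨htf, hnew⟩
        · left
          refine ⟨htf, ?_⟩
          have hts : t ∈ stack T a b c w := mem_stack.2 (Or.inl ⟨htf, ht⟩)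
          rw [hsf, Finset.inter_comm] at hst
          rcases inter_card_two hab hac hbc hst with ⟨h1, h2, -⟩ | ⟨h1, h2, -⟩ | ⟨h1, h2, -⟩
          · exact hcl _ h3.1 t hts (inter_card_two' hab h1 h2 hwt)
          · exact hcl _ h3.2.1 t hts (inter_card_two' hac h1 h2 hwt)
          · exact hcl _ h3.2.2 t hts (inter_card_two' hbc h1 h2 hwt)
  have hfA : {a, b, w} ∈ A := by
    have : f ∈ A1 := by rw [hA1T]; exact hT
    rw [hA1] at this
    rcases this.2 with h | h
    · exact absurd rfl h.1
    · exact h.2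
  obtain ⟨h1, h2, h3⟩ := hall (Or.inl hfA)
  apply Finset.Subset.antisymm hA
  intro t ht
  rcases mem_stack.1 ht with ⟨hne', htT⟩ | rfl | rfl | rfl
  · have : t ∈ A1 := by rw [hA1T]; exact htT
    rw [hA1] at this
    rcases this.2 with h | h
    · exact h.2
    · exact absurd h.1 hne'
  · exact h1
  · exact h2
  · exact h3

include hab hac hbc hT hw in
theorem stack_isSphere (hS : IsSphere T) : IsSphere (stack T a b c w) := by
  obtain ⟨ha, hb, hc⟩ := w_ne hT hw
  refine ⟨⟨{a, b, w}, mem_stack.2 (by simp)⟩, ?_, stack_edge hab hac hbc hT hw hS,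
    stack_conn hab hac hbc hT hw hS, ?_⟩
  · intro t ht
    rcases mem_stack.1 ht with ⟨-, h⟩ | rfl | rfl | rfl
    · exact hS.tri t h
    · exact Finset.card_eq_three.2 ⟨a, b, w, hab, ha.symm, hb.symm, rfl⟩
    · exact Finset.card_eq_three.2 ⟨a, c, w, hac, ha.symm, hc.symm, rfl⟩
    · exact Finset.card_eq_three.2 ⟨b, c, w, hbc, hb.symm, hc.symm, rfl⟩
  · rw [verts_stack hT, Finset.card_insert_of_notMem hw, card_stack hab hac hbc hT hw]
    have := hS.euler
    omega

end

end Pool.Agent.Helper79.HX
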