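import Pool.Agent.Helper79.HX.Cap
import Pool.Agent.Helper79.HX.One

/-!
# Winning states

`Win H C A B`: whenever the marked triangle has degrees `z, 3, 4`, the construction can be
completed so that the hub gets the degree `z + H`, the remaining large vertices get the degrees
`c + 4` (`c ∈ C`), and exactly `A` triangles and `B` quadrangles are used besides the two faces
of the last end.
-/

namespace Pool.Agent.Helper79.HX

open Finset

def Win (H : ℕ) (C : Multiset ℕ) (A B : ℕ) : Prop :=
  ∀ (z : ℕ) (M : Multiset ℕ), Conf z 3 4 M → ∃ p, Fin' (M + {z + H} +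
    C.map (fun c => c + 4) + Multiset.replicate (A + 1) 3 + Multiset.replicate (B + 1) 4 +
    Multiset.replicate p 5)

theorem Conf.flip {z x : ℕ} {M : Multiset ℕ} (h : Conf z 3 x M) : Conf x 3 z M :=
  h.swap.rot.swap

theorem Conf.tris2 {z x : ℕ} {M : Multiset ℕ} (h : Conf z 3 x M) (j : ℕ) :
    Conf (z + 2 * j) 3 (x + 3 * j) (M + Multiset.replicate j 3 + Multiset.replicate (2 * j) 5) :=
  (h.flip.tris j).flip

theorem win_nil (H : ℕ) : Win H 0 0 0 := by
  intro z M h
  refine ⟨H, (h.grow H).fin.congr ?_⟩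
  intro k
  simp only [Multiset.count_add, Multiset.count_cons, Multiset.count_singleton,
    Multiset.map_zero, Multiset.count_zero, Multiset.replicate_one, Nat.zero_add]
  omega

theorem win_P {H : ℕ} {C : Multiset ℕ} {A B : ℕ} (g : ℕ) (h : Win H C A B) :
    Win (H + g) C A B := by
  intro z M hz
  obtain ⟨p, hp⟩ := h _ _ (hz.grow g)
  have e : z + g + H = z + (H + g) := by ring
  rw [e] at hp
  refine ⟨p + g, hp.congr ?_⟩
  intro k
  simp only [Multiset.count_add, Multiset.replicate_add]
  omega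

theorem win_S {H' : ℕ} {C : Multiset ℕ} {A' B' : ℕ} (p a b q : ℕ) (h : Win H' C A' B') :
    Win (p + 3 * a + 2 * b + q + 1) ((H' + 2 * a + 3 * b + q + 1) ::ₘ C) (A' + a + b)
      (B' + q) := by
  intro z M hz
  have h1 := ((((hz.grow p).tris a).tris2 b).quads q).sw
  obtain ⟨p', hp'⟩ := h _ _ h1
  have e1 : z + p + 3 * a + 2 * b + q + 1 = z + (p + 3 * a + 2 * b + q + 1) := by ring
  have e2 : 4 + 2 * a + 3 * b + q + 1 + H' = H' + 2 * a + 3 * b + q + 1 + 4 := by ring
  rw [e1, e2] at hp'
  refine ⟨p + 2 * a + 2 * b + p', hp'.congr ?_⟩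
  intro k
  simp only [Multiset.count_add, Multiset.count_cons, Multiset.count_singleton,
    Multiset.map_cons, Multiset.replicate_add]
  omega

theorem win_L {H' : ℕ} {C : Multiset ℕ} {A' B' : ℕ} (a b q : ℕ) (h : Win H' C A' B') :
    Win (H' + 3 * a + 2 * b + q + 1) ((2 * a + 3 * b + q + 1) ::ₘ C) (A' + a + b)
      (B' + q) := by
  intro z M hz
  have h1 : Conf (z + 3 * a + 2 * b + q + 1) 3 4 _ :=
    (((hz.tris a).tris2 b).quads q).swap.move1
  obtain ⟨p', hp'⟩ := h _ _ h1
  have e1 : z + 3 * a + 2 * b + q + 1 + H' = z + (H' + 3 * a + 2 * b + q + 1) := by ring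
  have e2 : 4 + 2 * a + 3 * b + q + 1 = 2 * a + 3 * b + q + 1 + 4 := by ring
  rw [e1, e2] at hp'
  refine ⟨2 * a + 2 * b + p', hp'.congr ?_⟩
  intro k
  simp only [Multiset.count_add, Multiset.count_cons, Multiset.count_singleton,
    Multiset.map_cons, Multiset.replicate_add]
  omega

theorem Win.congr {H H' : ℕ} {C C' : Multiset ℕ} {A A' B B' : ℕ} (h : Win H C A B)
    (e1 : H = H') (e2 : C = C') (e3 : A = A') (e4 : B = B') : Win H' C' A' B' := by
  subst e1 e2 e3 e4; exact h

/-- the triple junction -/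
theorem win_tri (p q1 q3 j a g : ℕ) :
    Win (p + q1 + j + 5) {3 + q1 + q3 + 3 * a + g, 4 + j + q3 + 2 * a} a (q1 + j + q3 + 3) := by
  intro z M hz
  have h1 := (((((hz.grow p).quads q1).junction j).tris2 a).quads q3).sw
  have h2 := (h1.grow g).fin
  have e1 : z + p + q1 + 5 + j = z + (p + q1 + j + 5) := by ring
  have e2 : 4 + q1 + 2 + 3 * a + q3 + 1 + g = 3 + q1 + q3 + 3 * a + g + 4 := by ring
  have e3 : 7 + j + 2 * a + q3 + 1 = 4 + j + q3 + 2 * a + 4 := by ring
  rw [e1, e2, e3] at h2
  refine ⟨p + 2 + 2 * a + g, h2.congr ?_⟩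
  intro k
  simp only [Multiset.count_add, Multiset.count_cons, Multiset.count_singleton,
    Multiset.insert_eq_cons, Multiset.map_cons, Multiset.map_singleton, Multiset.replicate_add,
    Multiset.replicate_succ, Multiset.replicate_zero, Multiset.count_zero]
  omega

theorem win_zero (C : Multiset ℕ) : ∀ H, (∀ c ∈ C, 3 ≤ c) → Win (H + 1) C 0 0 := by
  induction C using Multiset.induction_on with
  | empty => intro H _; exact win_nil _
  | cons c C ih =>
    intro H hc
    have h3 := hc c (by simp)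
    have h1 := ih (c - 2) (fun c' h => hc c' (Multiset.mem_cons_of_mem h))
    exact (win_S H 0 0 0 h1).congr (by omega) (by congr 1; omega) rfl rfl

/-- pouring everything into one pair -/
theorem win_pour {H c A B : ℕ} {C : Multiset ℕ} (hC : ∀ c' ∈ C, 3 ≤ c')
    (h1 : 2 * A + B + 1 ≤ H) (h2 : 2 * A + B + 1 ≤ c)
    (h3 : 5 * A + 2 * B + 2 ≤ H + c) (h4 : C ≠ 0 → 5 * A + 2 * B + 3 ≤ H + c) :
    Win H (c ::ₘ C) A B := by
  obtain ⟨a, ha⟩ : ∃ a, a = min A (H - 1 - 2 * A - B) := ⟨_, rfl⟩
  obtain ⟨b, hb⟩ : ∃ b, b = A - a := ⟨_, rfl⟩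
  rcases Nat.lt_or_ge (2 * a + 3 * b + B + 1) c with h | h
  · have h5 := win_zero C (c - 2 * a - 3 * b - B - 2) hC
    refine (win_S (H - 1 - 3 * a - 2 * b - B) a b B h5).congr ?_ ?_ ?_ ?_
    · omega
    · congr 1; omega
    · omega
    · omega
  · have hc : c = 2 * a + 3 * b + B + 1 := by omega
    by_cases hC0 : C = 0
    · subst hC0
      refine (win_L a b B (win_nil (H - 1 - 3 * a - 2 * b - B))).congr ?_ ?_ ?_ ?_
      · omega
      · congr 1; omega
      · omega
      · omega
    · have h5 := win_zero C (H - 2 - 3 * a - 2 * b - B) hC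
      have h6 := h4 hC0
      refine (win_L a b B h5).congr ?_ ?_ ?_ ?_
      · omega
      · congr 1; omega
      · omega
      · omega

/-- a dominant hub -/
theorem win_dom {H A B : ℕ} {C : Multiset ℕ} (hC : ∀ c ∈ C, 3 ≤ c)
    (h1 : 3 * A + B + Multiset.card C + 1 ≤ H) (h2 : 2 * A + B + Multiset.card C ≤ C.sum) :
    Win H C A B := by
  obtain ⟨L, rfl⟩ := Quot.exists_rep C
  change ∀ c ∈ (L : Multiset ℕ), 3 ≤ c at hC
  change 3 * A + B + Multiset.card (L : Multiset ℕ) + 1 ≤ H at h1
  change 2 * A + B + Multiset.card (L : Multiset ℕ) ≤ (L : Multiset ℕ).sum at h2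
  change Win H (L : Multiset ℕ) A B
  rw [Multiset.coe_card] at h1 h2
  rw [Multiset.sum_coe] at h2
  have hL : ∀ c ∈ L, 3 ≤ c := fun c hc => hC c (Multiset.mem_coe.2 hc)
  have hsum : ((L.map (fun c => c + 4)).map (fun D => D - 5)).sum + L.length = L.sum := by
    clear h1 h2 hC
    induction L with
    | nil => simp
    | cons c L ih =>
      have h3 := hL c (by simp)
      have := ih (fun c' h => hL c' (List.mem_cons_of_mem _ h))
      simp only [List.map_cons, List.sum_cons, List.length_cons] at this ⊢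
      omega
  obtain ⟨Δ, x', p, Dd, Ds', e1, e2, e3, e4, e5, e6⟩ := raise _ (L.map (fun c => c + 4)) A B 4
    le_rfl (by
      intro D hD
      obtain ⟨c, hc, rfl⟩ := List.mem_map.1 hD
      have := hL c hc
      omega) le_rfl (fun _ => rfl) (by
      intro D hD
      obtain ⟨c, hc, rfl⟩ := List.mem_map.1 (List.mem_of_mem_head? hD)
      have := hL c hc
      omega) (by omega)
  have hlen : Dd.length + Ds'.length = L.length := by
    rw [← List.length_append, ← e1, List.length_map]
  have hmap : (L : Multiset ℕ).map (fun c => c + 4) = (Dd : Multiset ℕ) + (Ds' : Multiset ℕ) := by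
    rw [Multiset.map_coe, e1, Multiset.coe_add]
  intro z M hz
  rw [hmap]
  match Ds', e1, e2, e3, hlen with
  | [], e1, e2, e3, hlen =>
    have hx4 := e2 rfl
    subst hx4
    simp only [List.length_nil] at hlen
    have h3 := (e6 _ _ (hz.grow (H - Δ))).fin
    have e : z + (H - Δ) + Δ = z + H := by omega
    rw [e] at h3
    refine ⟨H - Δ + p, h3.congr ?_⟩
    intro k
    simp only [Multiset.count_add, Multiset.count_cons, Multiset.count_singleton,
      Multiset.replicate_add, Multiset.replicate_succ, Multiset.replicate_zero,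
      Multiset.count_zero, Multiset.coe_nil]
    omega
  | D' :: Ds'', e1, e2, e3, hlen =>
    have hD' : x' + 2 ≤ D' := e3 D' (by simp)
    simp only [List.length_cons] at hlen
    have h3 := (e6 _ _ (hz.grow (H - 1 - Δ))).sw
    have e : z + (H - 1 - Δ) + Δ + 1 = z + H := by omega
    rw [e] at h3
    have hmem : ∀ D ∈ Ds'', 7 ≤ D := by
      intro D hD
      have : D ∈ L.map (fun c => c + 4) := by rw [e1]; simp [hD]
      obtain ⟨c, hc, rfl⟩ := List.mem_map.1 this
      have := hL c hc
      omega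
    obtain ⟨p2, h4⟩ := h3.close (k := D') (by omega)
    obtain ⟨p3, h5⟩ := h4.rest Ds'' hmem
    refine ⟨H - 1 - Δ + p + p2 + p3 + 1, h5.endStd.congr ?_⟩
    intro k
    simp only [Multiset.count_add, Multiset.count_cons, Multiset.count_singleton,
      Multiset.insert_eq_cons, Multiset.replicate_add, Multiset.replicate_succ,
      Multiset.replicate_zero, Multiset.count_zero, ← Multiset.cons_coe]
    omega

end Pool.Agent.Helper79.HX
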