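import Pool.Agent.Helper79.HX.Win

/-!
# No triangles left
-/

namespace Pool.Agent.Helper79.HX

open Finset

theorem sum_ge {C : Multiset ℕ} (h : ∀ c ∈ C, 3 ≤ c) : 3 * Multiset.card C ≤ C.sum := by
  induction C using Multiset.induction_on with
  | empty => simp
  | cons c C ih =>
    have h1 := h c (by simp)
    have h2 := ih (fun c' h' => h c' (Multiset.mem_cons_of_mem h'))
    rw [Multiset.card_cons, Multiset.sum_cons]; omega

theorem sum_ge' {C : Multiset ℕ} (h : ∀ c ∈ C, 3 ≤ c) {x : ℕ} (hx : x ∈ C) :
    x + 3 * Multiset.card C ≤ C.sum + 3 := by
  obtain ⟨C', rfl⟩ := Multiset.exists_cons_of_mem hx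
  have h2 := sum_ge (C := C') (fun c' h' => h c' (Multiset.mem_cons_of_mem h'))
  rw [Multiset.card_cons, Multiset.sum_cons]; omega

/-- a largest and a smallest element -/
theorem decomp (C : Multiset ℕ) (h : 2 ≤ Multiset.card C) : ∃ (M m : ℕ) (C' : Multiset ℕ),
    C = M ::ₘ m ::ₘ C' ∧ m ≤ M ∧ (∀ c ∈ C', m ≤ c ∧ c ≤ M) := by
  have h0 : C.toFinset.Nonempty := by
    rw [Multiset.toFinset_nonempty]
    rintro rfl
    simp at h
  obtain ⟨M, hM, hmax⟩ := Finset.exists_max_image C.toFinset id h0
  obtain ⟨C1, rfl⟩ := Multiset.exists_cons_of_mem (Multiset.mem_toFinset.1 hM)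
  rw [Multiset.card_cons] at h
  have h1 : C1.toFinset.Nonempty := by
    rw [Multiset.toFinset_nonempty]
    rintro rfl
    simp at h
  obtain ⟨m, hm, hmin⟩ := Finset.exists_min_image C1.toFinset id h1
  obtain ⟨C', rfl⟩ := Multiset.exists_cons_of_mem (Multiset.mem_toFinset.1 hm)
  refine ⟨M, m, C', rfl, hmax m (by simp), ?_⟩
  intro c hc
  exact ⟨hmin c (by simp [hc]), hmax c (by simp [hc])⟩

theorem two0 {H c1 c2 B : ℕ} (h3 : 3 ≤ c2) (h21 : c2 ≤ c1) (hH : 1 ≤ H) (hs : B + 2 ≤ c1 + c2)
    (hc : B + 2 ≤ H + c2) (hW : 2 * B + 7 ≤ H + c1 + c2) : Win H {c1, c2} 0 B := by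
  rcases Nat.lt_or_ge c1 (B + 2) with h1 | h1
  · rcases Nat.lt_or_ge H (B + 2) with h2 | h2
    · refine (win_tri (H + c1 + c2 - 2 * B - 7) (B + 1 - c2) (c1 + c2 - 5 - B) (B + 1 - c1) 0
        1).congr ?_ ?_ rfl ?_
      · omega
      · congr 1
        · omega
        · congr 1; omega
      · omega
    · have h4 : Win (H - c1) (c2 ::ₘ 0) 0 (B - (c1 - 1)) :=
        win_pour (by simp) (by omega) (by omega) (by omega) (by simp)
      exact (win_L 0 0 (c1 - 1) h4).congr (by omega) (by
        rw [Multiset.insert_eq_cons]; congr 1; omega) rfl (by omega)
  · rcases Nat.lt_or_ge B H with h2 | h2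
    · exact win_pour (C := {c2}) (by simpa using h3) (by omega) (by omega) (by omega)
        (fun _ => by omega)
    · have h4 : Win (c1 - H) (c2 ::ₘ 0) 0 (B - (H - 1)) :=
        win_pour (by simp) (by omega) (by omega) (by omega) (by simp)
      exact (win_S 0 0 0 (H - 1) h4).congr (by omega) (by
        rw [Multiset.insert_eq_cons]; congr 1; omega) rfl (by omega)

theorem eqE (c : ℕ) (hc3 : 3 ≤ c) : ∀ (n : ℕ) (B : ℕ) (C : Multiset ℕ), Multiset.card C = n →
    2 ≤ n → (∀ x ∈ C, x = c) → 2 * B + 2 + 2 * n ≤ C.sum → Win 1 C 0 B := by
  intro n
  induction n using Nat.strong_induction_on with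
  | _ n ih =>
    intro B C hn h2 hc hW
    obtain ⟨M, m, C', rfl, -, -⟩ := decomp C (by omega)
    have hM : M = c := hc M (by simp)
    have hm : m = c := hc m (by simp)
    subst hM hm
    have hC' : ∀ x ∈ C', x = m := fun x hx => hc x (by simp [hx])
    have hC3 : ∀ x ∈ C', 3 ≤ x := fun x hx => by rw [hC' x hx]; exact hc3
    simp only [Multiset.card_cons, Multiset.sum_cons] at hn hW
    -- complete the hub
    suffices h : Win (m - 1) (m ::ₘ C') 0 B from
      (win_S 0 0 0 0 h).congr rfl (by congr 1; omega) rfl rfl
    rcases Nat.lt_or_ge B (m - 1) with hB | hB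
    · exact win_pour hC3 (by omega) (by omega) (by omega) (fun _ => by omega)
    · rcases Nat.lt_or_ge n 4 with h4 | h4
      · -- `n = 2` is impossible here, `n = 3`
        have : n = 2 ∨ n = 3 := by omega
        rcases this with rfl | rfl
        · exfalso
          have : Multiset.card C' = 0 := by omega
          rw [Multiset.card_eq_zero] at this
          subst this
          simp at hW
          omega
        · have : Multiset.card C' = 1 := by omega
          obtain ⟨y, rfl⟩ := Multiset.card_eq_one.1 this
          have hy : y = m := hC' y (by simp)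
          subst hy
          rw [Multiset.sum_singleton] at hW
          exact two0 hc3 le_rfl (by omega) (by omega) (by omega) (by omega)
      · have h5 := ih (n - 2) (by omega) (B - (m - 2)) C' (by omega) (by omega) hC' (by omega)
        exact (win_S 0 0 0 (m - 2) h5).congr (by omega) (by congr 1; omega) rfl (by omega)

theorem zero : ∀ (n H B : ℕ) (C : Multiset ℕ), Multiset.card C = n → (∀ c ∈ C, 3 ≤ c) →
    1 ≤ H → B + n ≤ C.sum → (∀ c ∈ C, B + c + n ≤ H + C.sum) →
    (2 ≤ n → 2 * B + 4 + 2 * n ≤ H + C.sum) → Win H C 0 B := by
  intro n
  induction n with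
  | zero =>
    intro H B C hn _ _ hs _ _
    rw [Multiset.card_eq_zero] at hn
    subst hn
    simp at hs
    subst hs
    exact win_nil H
  | succ n ih =>
    intro H B C hn h3 hH hs hc hW
    match n, ih, hn, hs, hc, hW with
    | 0, _, hn, hs, hc, hW =>
      obtain ⟨y, rfl⟩ := Multiset.card_eq_one.1 hn
      rw [Multiset.sum_singleton] at hs
      have h1 := hc y (by simp)
      rw [Multiset.sum_singleton] at h1
      exact win_pour (C := 0) (by simp) (by omega) (by omega) (by omega) (by simp)
    | 1, _, hn, hs, hc, hW =>
      obtain ⟨c1, c2, C', rfl, h21, -⟩ := decomp C (by omega)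
      simp only [Multiset.card_cons] at hn
      have : Multiset.card C' = 0 := by omega
      rw [Multiset.card_eq_zero] at this
      subst this
      simp only [Multiset.sum_cons, Multiset.sum_zero] at hs hc hW
      have h1 := hc c1 (by simp)
      have h3' := h3 c2 (by simp)
      have hW' := hW (by omega)
      exact two0 h3' h21 hH (by omega) (by omega) (by omega)
    | n + 2, ih, hn, hs, hc, hW =>
      obtain ⟨M, m, C', rfl, hmM, hC'⟩ := decomp C (by omega)
      simp only [Multiset.card_cons] at hn
      simp only [Multiset.sum_cons] at hs hc hW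
      have hW' := hW (by omega)
      have hM3 := h3 M (by simp)
      have hm3 := h3 m (by simp)
      have hC3 : ∀ x ∈ C', 3 ≤ x := fun x hx => h3 x (by simp [hx])
      have hcM := hc M (by simp)
      have hcm := hc m (by simp)
      have hsum := sum_ge hC3
      have hcard : Multiset.card C' = n + 1 := by omega
      obtain ⟨y, hy⟩ : ∃ y, y ∈ C' := by
        apply Multiset.exists_mem_of_ne_zero
        rintro rfl
        simp at hcard
      have hy1 := hC' y hy
      have hy2 := sum_ge' hC3 hy
      -- the step on the smallest element
      have hL : m - 1 ≤ B → m + 1 ≤ H → B + (n + 3) ≤ H + C'.sum →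
          Win H (M ::ₘ m ::ₘ C') 0 B := by
        intro k1 k2 k3
        have h5 := ih (H - m) (B - (m - 1)) (M ::ₘ C') (by simp only [Multiset.card_cons]; omega)
          (fun c hc' => h3 c (by
            rcases Multiset.mem_cons.1 hc' with h | h <;> simp [h]))
          (by omega) (by simp only [Multiset.sum_cons]; omega)
          (by
            intro c hc'
            simp only [Multiset.sum_cons]
            have : c ≤ M := by
              rcases Multiset.mem_cons.1 hc' with h | h
              · omega
              · exact (hC' c h).2
            omega)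
          (by
            intro _
            simp only [Multiset.sum_cons]
            omega)
        exact (win_L 0 0 (m - 1) h5).congr (by omega) (by
          rw [Multiset.cons_swap]; congr 2; omega) rfl (by omega)
      by_cases hFP : B + 1 ≤ H ∧ B + 1 ≤ M ∧ 2 * B + 3 ≤ H + M
      · exact win_pour (by
          intro c hc'
          rcases Multiset.mem_cons.1 hc' with h | h
          · omega
          · exact hC3 c h) (by omega) (by omega) (by omega) (fun _ => by omega)
      · rcases Nat.lt_or_ge H M with hHM | hHM
        · by_cases hall : ∀ c ∈ m ::ₘ C', B + c + (n + 3) ≤ M + (m + C'.sum)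
          · have h5 := ih (M - H) (B - (H - 1)) (m ::ₘ C')
              (by simp only [Multiset.card_cons]; omega)
              (fun c hc' => h3 c (by
                rcases Multiset.mem_cons.1 hc' with h | h <;> simp [h]))
              (by omega) (by simp only [Multiset.sum_cons]; omega)
              (by
                intro c hc'
                have := hall c hc'
                simp only [Multiset.sum_cons]
                omega)
              (by
                intro _
                simp only [Multiset.sum_cons]
                omega)
            exact (win_S 0 0 0 (H - 1) h5).congr (by omega) (by congr 1; omega) rfl (by omega)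
          · push Not at hall
            obtain ⟨c0, hc0, hlt⟩ := hall
            have hc01 : c0 ≤ M ∧ c0 ≤ C'.sum := by
              rcases Multiset.mem_cons.1 hc0 with h | h
              · omega
              · have := sum_ge' hC3 h
                have := (hC' c0 h).2
                omega
            exact hL (by omega) (by omega) (by omega)
        · rcases Nat.lt_or_ge m H with hmH | hmH
          · exact hL (by omega) (by omega) (by omega)
          · have e1 : M = H := by omega
            have e2 : m = H := by omega
            subst e1 e2
            have h5 := eqE m (by omega) (n + 2) (B - (m - 2)) (m ::ₘ C')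
              (by simp only [Multiset.card_cons]; omega) (by omega)
              (by
                intro x hx
                rcases Multiset.mem_cons.1 hx with h | h
                · exact h
                · have := hC' x h; omega)
              (by simp only [Multiset.sum_cons]; omega)
            exact (win_S 1 0 0 (m - 2) h5).congr (by omega) (by congr 1; omega) rfl (by omega)

end Pool.Agent.Helper79.HX
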